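import Pool.Agent.Helper223.CP.Lang

namespace Pool.Helper223.CP

namespace J1

theorem Hn_append (n : ℕ) (v w : List Bool) : Hn n (v ++ w) = Hn n v ++ Hn n w := by
  induction n with
  | zero => rfl
  | succ n ih => simp [Hn, ih]

theorem Hn_add (m n : ℕ) (w : List Bool) : Hn (m + n) w = Hn m (Hn n w) := by
  induction m with
  | zero => simp [Hn]
  | succ m ih =>
    have : m + 1 + n = (m + n) + 1 := by omega
    rw [this]
    simp [Hn, ih]

theorem ap_H_reverse (w : List Bool) : ap H w.reverse = (ap H w).reverse := by
  induction w with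
  | nil => rfl
  | cons a w ih =>
    have h : (H a).reverse = H a := by cases a <;> rfl
    simp [ih, h]

theorem ap_K_reverse (w : List Bool) : ap K w.reverse = (ap K w).reverse := by
  induction w with
  | nil => rfl
  | cons a w ih =>
    have h : (K a).reverse = K a := by cases a <;> rfl
    simp [ih, h]

theorem Hn_reverse (n : ℕ) (w : List Bool) : Hn n w.reverse = (Hn n w).reverse := by
  induction n with
  | zero => rfl
  | succ n ih => simp only [Hn, ih, ap_H_reverse]

theorem LY_reverse {w : List Bool} (h : LY w) : LY w.reverse := by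
  obtain ⟨n, hn⟩ := h
  refine ⟨n, ?_⟩
  have h1 := List.reverse_infix.2 hn
  rw [← Hn_reverse] at h1
  exact h1

theorem LX_reverse {w : List (Fin 3)} (h : LX w) : LX w.reverse := by
  obtain ⟨y, hy, hw⟩ := h
  refine ⟨y.reverse, LY_reverse hy, ?_⟩
  rw [ap_K_reverse]
  exact List.reverse_infix.2 hw

theorem Hn_ne_nil (n : ℕ) {w : List Bool} (hw : w ≠ []) : Hn n w ≠ [] := by
  induction n with
  | zero => exact hw
  | succ n ih =>
    simp only [Hn]
    cases h : Hn n w with
    | nil => exact absurd h ih
    | cons a v =>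
      cases a <;> simp [H]

theorem ext_aux {α : Type} {x w w' y : List α} (hx : x ≠ []) (hy : y ≠ []) (hw : w <:+: w') :
    ∃ s t, (s :: (w ++ [t])) <:+: x ++ w' ++ y := by
  obtain ⟨p, q, hpq⟩ := hw
  have h1 : x ++ p ≠ [] := by simp [hx]
  have h2 : q ++ y ≠ [] := by simp [hy]
  obtain ⟨x', s, hs⟩ : ∃ x' s, x ++ p = x' ++ [s] :=
    ⟨(x ++ p).dropLast, (x ++ p).getLast h1, (List.dropLast_append_getLast h1).symm⟩
  obtain ⟨t, y', ht⟩ := List.exists_cons_of_ne_nil h2
  refine ⟨s, t, x', y', ?_⟩
  calc x' ++ s :: (w ++ [t]) ++ y' = (x' ++ [s]) ++ w ++ (t :: y') := by simp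
    _ = (x ++ p) ++ w ++ (q ++ y) := by rw [hs, ht]
    _ = x ++ (p ++ w ++ q) ++ y := by simp
    _ = _ := by rw [hpq]

theorem LY_ext {w : List Bool} (h : LY w) : ∃ s t, LY (s :: (w ++ [t])) := by
  obtain ⟨n, hn⟩ := h
  obtain ⟨s, t, hst⟩ := ext_aux (x := Hn n [false, true])
    (y := Hn n [false, true, false, true, false, false, true, false])
    (Hn_ne_nil n (by simp)) (Hn_ne_nil n (by simp)) hn
  refine ⟨s, t, n + 2, ?_⟩
  rw [Hn_add]
  have h2 : Hn 2 [false] = [false, true] ++ [false] ++
      [false, true, false, true, false, false, true, false] := by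
    simp [Hn, H, ap]
  rw [h2, Hn_append, Hn_append]
  exact hst

theorem LX_ext {w : List (Fin 3)} (h : LX w) : ∃ s t, LX (s :: (w ++ [t])) := by
  obtain ⟨y, hy, hw⟩ := h
  obtain ⟨a, b, hab⟩ := LY_ext hy
  have hK : ∀ a, K a ≠ [] := by intro a; cases a <;> simp [K]
  obtain ⟨s, t, hst⟩ := ext_aux (hK a) (hK b) hw
  refine ⟨s, t, _, hab, ?_⟩
  have : ap K (a :: (y ++ [b])) = K a ++ ap K y ++ K b := by simp
  rw [this]; exact hst

end J1

namespace J1b
open J1

theorem cnt_H (v : List Bool) : (ap H v).count false = 2 * v.count false + 3 * v.count true ∧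
    (ap H v).count true = v.count false + 2 * v.count true := by
  induction v with
  | nil => simp
  | cons b v ih =>
    obtain ⟨h1, h2⟩ := ih
    cases b <;> simp [H, List.count_append, List.count_cons, h1, h2] <;> omega

theorem cnt_K (v : List Bool) : v.count false ≤ (ap K v).count 0 ∧
    v.count false ≤ (ap K v).count 1 ∧ v.count true ≤ (ap K v).count 2 := by
  induction v with
  | nil => simp
  | cons b v ih =>
    obtain ⟨h1, h2, h3⟩ := ih
    cases b <;> simp [K, List.count_append, List.count_cons] <;> omega

theorem cnt_Hn (m : ℕ) (v : List Bool) : v.count false ≤ (Hn m v).count false ∧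
    v.count true ≤ (Hn m v).count true := by
  induction m with
  | zero => simp [Hn]
  | succ m ih =>
    have := cnt_H (Hn m v)
    simp only [Hn]
    omega

theorem cnt_big (n : ℕ) : n + 1 ≤ (Hn n [false]).count false := by
  induction n with
  | zero => simp [Hn]
  | succ m ih =>
    have := cnt_H (Hn m [false])
    simp only [Hn]
    omega

theorem cnt_big2 (n : ℕ) : n + 1 ≤ (Hn (n + 1) [false]).count true := by
  have := cnt_H (Hn n [false])
  have := cnt_big n
  simp only [Hn]
  omega

theorem Hn_head (n : ℕ) : ∃ t, Hn n [false] = false :: t := by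
  induction n with
  | zero => exact ⟨[], rfl⟩
  | succ n ih =>
    obtain ⟨t, ht⟩ := ih
    refine ⟨[true, false] ++ ap H t, ?_⟩
    simp [Hn, ht, H]


theorem LX_ext_many {w : List (Fin 3)} (h : LX w) (n : ℕ) :
    ∃ t, LX (w ++ t) ∧ ∀ a : Fin 3, n ≤ t.count a := by
  obtain ⟨y, ⟨m, p, q, hm⟩, p', q', hy⟩ := h
  obtain ⟨tl, htl⟩ := Hn_head (n + 1)
  have hbig := cnt_big (n + 1)
  have hbig2 := cnt_big2 n
  rw [htl] at hbig hbig2
  simp only [List.count_cons] at hbig hbig2
  simp at hbig hbig2
  refine ⟨q' ++ ap K (q ++ Hn m tl), ⟨y ++ (q ++ Hn m tl), ⟨m + (n + 1), p, [], ?_⟩, p', [], ?_⟩, ?_⟩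
  · rw [Hn_add, htl, show (false :: tl) = [false] ++ tl from rfl, Hn_append, ← hm]
    simp
  · rw [ap_append _ y, ← hy]
    simp
  · have h1 := cnt_K (q ++ Hn m tl)
    have h2 := cnt_Hn m tl
    simp only [List.count_append] at h1
    intro a
    rw [List.count_append]
    fin_cases a
    · have := h1.1
      simp only [Fin.zero_eta, Fin.mk_one, Fin.reduceFinMk] at *
      omega
    · have := h1.2.1
      simp only [Fin.zero_eta, Fin.mk_one, Fin.reduceFinMk] at *
      omega
    · have := h1.2.2
      simp only [Fin.zero_eta, Fin.mk_one, Fin.reduceFinMk] at *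
      omega

theorem LY_many (n : ℕ) : ∃ w, LY w ∧ n ≤ w.count false ∧ n ≤ w.count true := by
  refine ⟨Hn (n + 1) [false], ⟨n + 1, List.infix_rfl⟩, ?_, ?_⟩
  · have := cnt_big (n + 1); omega
  · have := cnt_big2 n; omega

end J1b

namespace J2

theorem cover_prefix {α β : Type} (f : α → List β) (hf : ∀ c, 3 ≤ (f c).length) (y : List α)
    (w : List β) (h : w <+: ap f y) :
    ∃ v, v <+: y ∧ w <+: ap f v ∧ 3 * v.length ≤ w.length + 2 := by
  induction y generalizing w with
  | nil =>
    refine ⟨[], List.nil_prefix, ?_, by simp⟩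
    simpa using h
  | cons c y ih =>
    rw [ap_cons] at h
    rcases List.prefix_or_prefix_of_prefix h (List.prefix_append (f c) (ap f y)) with h1 | h1
    · rcases w with _ | ⟨b, w⟩
      · exact ⟨[], List.nil_prefix, by simp, by simp⟩
      · refine ⟨[c], ?_, ?_, ?_⟩
        · exact ⟨y, rfl⟩
        · simpa using h1
        · simp only [List.length_cons, List.length_nil]; omega
    · obtain ⟨w', rfl⟩ := h1
      rw [List.prefix_append_right_inj] at h
      obtain ⟨v, hv1, hv2, hv3⟩ := ih w' h
      refine ⟨c :: v, ?_, ?_, ?_⟩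
      · obtain ⟨t, rfl⟩ := hv1
        exact ⟨t, rfl⟩
      · rw [ap_cons, List.prefix_append_right_inj]
        exact hv2
      · have := hf c
        simp only [List.length_cons, List.length_append]; omega


theorem cover {α β : Type} (f : α → List β) (hf : ∀ c, 3 ≤ (f c).length) (y : List α)
    (w : List β) (h : w <:+: ap f y) :
    ∃ v, v <:+: y ∧ w <:+: ap f v ∧ 3 * v.length ≤ w.length + 4 := by
  induction y generalizing w with
  | nil =>
    refine ⟨[], List.infix_rfl, ?_, by simp⟩
    simpa using h
  | cons c y ih =>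
    rw [ap_cons] at h
    obtain ⟨l, r, hlr⟩ := h
    rw [List.append_assoc, List.append_eq_append_iff] at hlr
    rcases hlr with ⟨m, h1, h2⟩ | ⟨m, h1, h2⟩
    · have hw : w <+: m ++ ap f y := ⟨r, h2⟩
      rcases List.prefix_or_prefix_of_prefix hw (List.prefix_append m (ap f y)) with h3 | h3
      · refine ⟨[c], ⟨[], y, rfl⟩, ?_, ?_⟩
        · obtain ⟨s, rfl⟩ := h3
          refine ⟨l, s, ?_⟩
          simp [h1, List.append_assoc]
        · simp only [List.length_cons, List.length_nil]; omega
      · obtain ⟨w', rfl⟩ := h3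
        rw [List.prefix_append_right_inj] at hw
        obtain ⟨v, hv1, hv2, hv3⟩ := cover_prefix f hf y w' hw
        rcases m with _ | ⟨b, m⟩
        · refine ⟨v, ?_, ?_, ?_⟩
          · exact hv1.isInfix.trans (List.suffix_cons c y).isInfix
          · simpa using hv2.isInfix
          · simp only [List.nil_append]; omega
        · refine ⟨c :: v, ?_, ?_, ?_⟩
          · obtain ⟨t, rfl⟩ := hv1
            exact ⟨[], t, by simp⟩
          · obtain ⟨s, hs⟩ := hv2
            refine ⟨l, s, ?_⟩
            rw [ap_cons, h1, ← hs]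
            simp [List.append_assoc]
          · simp only [List.length_cons, List.length_append]; omega
    · obtain ⟨v, hv1, hv2, hv3⟩ := ih w ⟨m, r, by rw [List.append_assoc]; exact h2.symm⟩
      exact ⟨v, hv1.trans (List.suffix_cons c y).isInfix, hv2, hv3⟩

end J2

namespace J3
open J2

/-- decidable infix test -/
def infB {α : Type} [BEq α] (f : List α) : List α → Bool
  | [] => f.isPrefixOf []
  | a :: w => f.isPrefixOf (a :: w) || infB f w

theorem infB_iff {α : Type} [BEq α] [LawfulBEq α] (f w : List α) : infB f w = true ↔ f <:+: w := by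
  induction w with
  | nil =>
    simp only [infB, List.isPrefixOf_iff_prefix, List.prefix_nil, List.infix_nil]
  | cons a w ih =>
    simp only [infB, Bool.or_eq_true, ih, List.isPrefixOf_iff_prefix, List.infix_cons_iff]

/-- all words of length `n` -/
def wordsB : ℕ → List (List Bool)
  | 0 => [[]]
  | n + 1 => (wordsB n).flatMap (fun w => [false :: w, true :: w])

theorem mem_wordsB (v : List Bool) : v ∈ wordsB v.length := by
  induction v with
  | nil => simp [wordsB]
  | cons a v ih =>
    simp only [List.length_cons, wordsB, List.mem_flatMap]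
    refine ⟨v, ih, ?_⟩
    cases a <;> simp

theorem checkY : ((List.range 8).all fun n => (wordsB n).all fun v => FBY.all fun f =>
    !(infB f (ap H v)) || FBY.any (fun f' => infB f' v)) = true := by
  decide +kernel

theorem checkX : ((List.range 4).all fun n => (wordsB n).all fun v => FBX.all fun f =>
    !(infB f (ap K v)) || FBY.any (fun f' => infB f' v)) = true := by
  decide +kernel

theorem checkY' {v : List Bool} (hv : v.length < 8) {f : List Bool} (hf : f ∈ FBY)
    (h : f <:+: ap H v) : ∃ f' ∈ FBY, f' <:+: v := by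
  have h1 := checkY
  rw [List.all_eq_true] at h1
  have h2 := h1 v.length (List.mem_range.2 hv)
  rw [List.all_eq_true] at h2
  have h3 := h2 v (mem_wordsB v)
  rw [List.all_eq_true] at h3
  have h4 := h3 f hf
  rw [(infB_iff f _).2 h] at h4
  simp only [Bool.not_true, Bool.false_or, List.any_eq_true] at h4
  obtain ⟨f', hf', h5⟩ := h4
  exact ⟨f', hf', (infB_iff f' v).1 h5⟩

theorem checkX' {v : List Bool} (hv : v.length < 4) {f : List (Fin 3)} (hf : f ∈ FBX)
    (h : f <:+: ap K v) : ∃ f' ∈ FBY, f' <:+: v := by
  have h1 := checkX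
  rw [List.all_eq_true] at h1
  have h2 := h1 v.length (List.mem_range.2 hv)
  rw [List.all_eq_true] at h2
  have h3 := h2 v (mem_wordsB v)
  rw [List.all_eq_true] at h3
  have h4 := h3 f hf
  rw [(infB_iff f _).2 h] at h4
  simp only [Bool.not_true, Bool.false_or, List.any_eq_true] at h4
  obtain ⟨f', hf', h5⟩ := h4
  exact ⟨f', hf', (infB_iff f' v).1 h5⟩

theorem lenY : ∀ f ∈ FBY, f.length ≤ 19 ∧ 2 ≤ f.length := by decide

theorem lenX : ∀ f ∈ FBX, f.length ≤ 5 := by decide

theorem noY (n : ℕ) : ∀ f ∈ FBY, ¬ f <:+: Hn n [false] := by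
  induction n with
  | zero =>
    intro f hf h
    have h1 := h.length_le
    have h2 := (lenY f hf).2
    simp [Hn] at h1
    omega
  | succ n ih =>
    intro f hf h
    obtain ⟨v, hv, hfv, hlen⟩ := cover H (by intro c; cases c <;> simp [H]) _ f h
    have h1 := (lenY f hf).1
    obtain ⟨f', hf', h2⟩ := checkY' (by omega) hf hfv
    exact ih f' hf' (h2.trans hv)


theorem not_LY_of_mem_FBY {f : List Bool} (hf : f ∈ FBY) : ¬ LY f := by
  rintro ⟨n, hn⟩
  exact noY n f hf hn

theorem not_LX_of_mem_FBX {f : List (Fin 3)} (hf : f ∈ FBX) : ¬ LX f := by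
  rintro ⟨y, hy, h⟩
  obtain ⟨v, hv, hfv, hlen⟩ := cover K (by intro c; cases c <;> simp [K]) _ f h
  have h1 := lenX f hf
  obtain ⟨f', hf', h2⟩ := checkX' (by omega) hf hfv
  exact not_LY_of_mem_FBY hf' (LY_infix hy (h2.trans hv))

end J3

namespace J4

theorem decH_aux833 (y : List Bool) : ∀ (l r : List Bool),
    ap H y = l ++ false :: false :: r →
    ∃ y1 y2, y = y1 ++ y2 ∧ ap H y1 = l ++ [false] ∧ ap H y2 = false :: r := by
  induction y with
  | nil => intro l r h; simp at h
  | cons c y' ih =>
    intro l r h
    cases c with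
    | false =>
      match l, h with
      | [], h => simp [H] at h
      | [a], h => simp [H] at h
      | [a, b], h =>
        simp [H] at h
        obtain ⟨rfl, rfl, h⟩ := h
        exact ⟨[false], y', rfl, by simp [H], h⟩
      | a :: b :: c :: l3, h =>
        simp [H] at h
        obtain ⟨rfl, rfl, rfl, h⟩ := h
        obtain ⟨y1, y2, hy, h1, h2⟩ := ih l3 r h
        exact ⟨false :: y1, y2, by simp [hy], by simp [H, h1], h2⟩
    | true =>
      match l, h with
      | [], h => simp [H] at h
      | [a], h => simp [H] at h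
      | [a, b], h => simp [H] at h
      | [a, b, c], h => simp [H] at h
      | [a, b, c, d], h =>
        simp [H] at h
        obtain ⟨rfl, rfl, rfl, rfl, h⟩ := h
        exact ⟨[true], y', rfl, by simp [H], h⟩
      | a :: b :: c :: d :: e :: l5, h =>
        simp [H] at h
        obtain ⟨rfl, rfl, rfl, rfl, rfl, h⟩ := h
        obtain ⟨y1, y2, hy, h1, h2⟩ := ih l5 r h
        exact ⟨true :: y1, y2, by simp [hy], by simp [H, h1], h2⟩

theorem decH (y l r : List Bool) (h : ap H y = l ++ r) (hl : ∃ l', l = l' ++ [false])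
    (hr : ∃ r', r = false :: r') :
    ∃ y1 y2, y = y1 ++ y2 ∧ ap H y1 = l ∧ ap H y2 = r := by
  obtain ⟨l', rfl⟩ := hl
  obtain ⟨r', rfl⟩ := hr
  exact decH_aux833 y l' r' (by simpa using h)

theorem ap_H_ne833 (y z : List Bool) : ap H y ≠ true :: z := by
  cases y with
  | nil => simp
  | cons c y' => cases c <;> simp [H]

theorem ap_H_injective : Function.Injective (ap H) := by
  intro x
  induction x with
  | nil =>
    intro y h
    cases y with
    | nil => rfl
    | cons c y' => cases c <;> simp [H] at h
  | cons a x ih =>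
    intro y h
    cases y with
    | nil => cases a <;> simp [H] at h
    | cons c y' =>
      cases a <;> cases c <;> simp [H] at h
      · rw [ih h]
      · exact absurd h (ap_H_ne833 _ _)
      · exact absurd h.symm (ap_H_ne833 _ _)
      · rw [ih h]

theorem decH_LY {l w r : List Bool} (h : LY (l ++ [false] ++ w ++ [false] ++ r))
    (h1 : ∃ w', w = false :: w') (h2 : ∃ w', w = w' ++ [false]) :
    ∃ z, LY z ∧ w = ap H z := by
  obtain ⟨n, hn⟩ := h
  cases n with
  | zero =>
    obtain ⟨w', rfl⟩ := h1
    have := hn.length_le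
    simp [Hn] at this
    omega
  | succ n =>
    obtain ⟨p, s, hps⟩ := hn
    have e1 : ap H (Hn n [false]) = (p ++ (l ++ [false])) ++ (w ++ ([false] ++ r ++ s)) := by
      have : Hn (n + 1) [false] = ap H (Hn n [false]) := rfl
      rw [← this, ← hps]
      simp
    obtain ⟨y1, y2, hy, ha1, ha2⟩ := decH _ _ _ e1 ⟨p ++ l, by simp⟩
      (by obtain ⟨w', rfl⟩ := h1; exact ⟨_, rfl⟩)
    obtain ⟨y3, y4, hy', ha3, ha4⟩ := decH _ _ _ ha2 h2 ⟨r ++ s, by simp⟩
    refine ⟨y3, ⟨n, ?_⟩, ha3.symm⟩
    rw [hy, hy']
    exact ⟨y1, y4, by simp⟩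

end J4

namespace J5

theorem decK (y : List Bool) (l r : List (Fin 3)) (h : ap K y = l ++ r)
    (hc : (∃ l', l = l' ++ [1, 0]) ∨ (∃ r', r = 0 :: 1 :: r') ∨
      ((∃ l', l = l' ++ [0]) ∧ ∃ r', r = 0 :: r')) :
    ∃ y1 y2, y = y1 ++ y2 ∧ ap K y1 = l ∧ ap K y2 = r := by
  induction y generalizing l r with
  | nil =>
    rw [ap_nil] at h
    have h' := h.symm
    rw [List.append_eq_nil_iff] at h'
    exact ⟨[], [], rfl, by rw [ap_nil, h'.1], by rw [ap_nil, h'.2]⟩
  | cons c y ih =>
    rw [ap_cons] at h
    rcases l with _ | ⟨a, _ | ⟨b, _ | ⟨d, l⟩⟩⟩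
    · exact ⟨[], c :: y, rfl, rfl, by rw [ap_cons]; exact h⟩
    · exfalso
      rcases hc with ⟨l', hl⟩ | ⟨r', rfl⟩ | ⟨⟨l', hl⟩, r', rfl⟩
      · have := congrArg List.length hl
        simp at this
      · cases c <;> simp [K] at h
      · have ha : a = 0 := by
          have := congrArg List.getLast? hl
          simpa using this
        subst ha
        cases c <;> simp [K] at h
    · exfalso
      rcases hc with ⟨l', hl⟩ | ⟨r', rfl⟩ | ⟨⟨l', hl⟩, r', rfl⟩
      · have hl' : l' = [] := by
          have := congrArg List.length hl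
          simp at this
          exact this
        subst hl'
        simp at hl
        cases c <;> simp [K, hl.1] at h
      · cases c
        · cases y with
          | nil => simp [K] at h
          | cons c' y' => cases c' <;> simp [K] at h
        · simp [K] at h
      · have hb : b = 0 := by
          have := congrArg List.getLast? hl
          simpa using this
        subst hb
        cases c <;> simp [K] at h
    · have hK : K c = [a, b, d] ∧ ap K y = l ++ r := by
        cases c <;> · simp only [K, List.cons_append, List.nil_append, List.cons.injEq] at h ⊢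
                      obtain ⟨rfl, rfl, rfl, h⟩ := h
                      exact ⟨⟨rfl, rfl, rfl, trivial⟩, h⟩
      rcases List.eq_nil_or_concat l with rfl | ⟨l0, e, rfl⟩
      · exact ⟨[c], y, rfl, by rw [ap_cons, ap_nil, hK.1]; rfl, by rw [hK.2]; rfl⟩
      · rw [List.concat_eq_append] at *
        have hc' : (∃ l', l0 ++ [e] = l' ++ [1, 0]) ∨ (∃ r', r = 0 :: 1 :: r') ∨
            ((∃ l', l0 ++ [e] = l' ++ [0]) ∧ ∃ r', r = 0 :: r') := by
          rcases hc with ⟨l', hl⟩ | hr | ⟨⟨l', hl⟩, hr⟩
          · left
            rcases List.eq_nil_or_concat l0 with rfl | ⟨l1, e', rfl⟩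
            · exfalso
              have hl' : l' = [a, b] := by
                have h1 : [a, b] ++ [d, e] = l' ++ [1, 0] := by simpa using hl
                exact ((List.append_inj' h1 rfl).1).symm
              subst hl'
              simp at hl
              have hk := hK.1
              cases c <;> simp [K, hl.1] at hk
            · rw [List.concat_eq_append] at *
              have h1 : ([a, b, d] ++ l1) ++ [e', e] = l' ++ [1, 0] := by simpa using hl
              have h2 := (List.append_inj' h1 rfl).2
              refine ⟨l1, ?_⟩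
              rw [List.append_assoc]
              exact congrArg _ h2
          · right; left; exact hr
          · right; right
            refine ⟨⟨l0, ?_⟩, hr⟩
            have h1 : ([a, b, d] ++ l0) ++ [e] = l' ++ [0] := by simpa using hl
            have h2 := (List.append_inj' h1 rfl).2
            exact congrArg _ h2
        obtain ⟨y1, y2, hy, hy1, hy2⟩ := ih (l0 ++ [e]) r hK.2 hc'
        refine ⟨c :: y1, y2, by rw [hy]; rfl, ?_, hy2⟩
        rw [ap_cons, hy1, hK.1]
        rfl

theorem ap_K_injective : Function.Injective (ap K) := by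
  intro x
  induction x with
  | nil =>
    intro y h
    cases y with
    | nil => rfl
    | cons c y => cases c <;> simp [K] at h
  | cons c x ih =>
    intro y h
    cases y with
    | nil => cases c <;> simp [K] at h
    | cons c' y =>
      have h1 : c = c' ∧ ap K x = ap K y := by
        cases c <;> cases c' <;> simp [K] at h ⊢ <;> exact h
      rw [h1.1, ih h1.2]

end J5

namespace J6
open J1 J3 J4 J5

theorem ap_pw352 {α β : Type} (f : α → List β) (w : List α) (k : ℕ) :
    ap f (List.replicate k w).flatten = (List.replicate k (ap f w)).flatten := by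
  induction k with
  | zero => rfl
  | succ k ih => rw [List.replicate_succ, List.flatten_cons, ap_append, ih, List.replicate_succ,
      List.flatten_cons]

theorem pw_succ352 {α : Type} (w : List α) (k : ℕ) :
    (List.replicate (k + 1) w).flatten = w ++ (List.replicate k w).flatten := by
  rw [List.replicate_succ, List.flatten_cons]

theorem pw_succ'352 {α : Type} (w : List α) (k : ℕ) :
    (List.replicate (k + 1) w).flatten = (List.replicate k w).flatten ++ w := by
  rw [List.replicate_succ', List.flatten_append]
  simp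

theorem pw_two352 {α : Type} (w : List α) (k : ℕ) :
    (List.replicate (k + 2) w).flatten = w ++ ((List.replicate k w).flatten ++ w) := by
  rw [pw_succ352 w (k + 1), pw_succ'352 w k]

theorem pal_ends352 {α : Type} {W : List α} (hW : W.reverse = W) (hne : W ≠ []) :
    ∃ a W0 W1, W = a :: W0 ∧ W = W1 ++ [a] := by
  obtain ⟨a, W0, h⟩ : ∃ a W0, W = a :: W0 := by
    cases W with
    | nil => exact absurd rfl hne
    | cons a W0 => exact ⟨a, W0, rfl⟩
  refine ⟨a, W0, W0.reverse, h, ?_⟩
  conv_lhs => rw [← hW, h]
  simp

theorem ap_H_length352 (w : List Bool) : 3 * w.length ≤ (ap H w).length := by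
  induction w with
  | nil => simp
  | cons a w ih =>
    rw [ap_cons, List.length_append, List.length_cons]
    have : 3 ≤ (H a).length := by cases a <;> simp [H]
    omega

theorem pow_not_LY (W : List Bool) (hW : W.reverse = W) (hne : W ≠ [])
    (h : ∀ k, LY (List.replicate k W).flatten) : False := by
  induction hn : W.length using Nat.strong_induction_on generalizing W with
  | _ n ih =>
    obtain ⟨a, W0, W1, hs, he⟩ := pal_ends352 hW hne
    have ha : a = false := by
      cases a with
      | false => rfl
      | true =>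
        exfalso
        have h2 := h 2
        have e2 : (List.replicate 2 W).flatten = W ++ W := by
          rw [pw_two352 W 0]
          simp
        rw [e2] at h2
        have h3 : LY [true, true] := by
          refine LY_infix h2 ⟨W1, W0, ?_⟩
          conv_rhs => rw [he]
          conv_rhs => rw [← he, hs]
          rw [← hs, he]
          simp
          have : W1 ++ [true] = true :: W0 := by rw [← he, hs]
          simp [← this]
        exact not_LY_of_mem_FBY (by simp [FBY]) h3
    subst ha
    have key : ∀ k, ∃ z, LY z ∧ (List.replicate (k + 1) W).flatten = ap H z := by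
      intro k
      have h1 := h (k + 1 + 2)
      rw [pw_two352 W (k + 1)] at h1
      have h2 : LY (W1 ++ [false] ++ (List.replicate (k + 1) W).flatten ++ [false] ++ W0) := by
        have e : W1 ++ [false] ++ (List.replicate (k + 1) W).flatten ++ [false] ++ W0 =
            W ++ ((List.replicate (k + 1) W).flatten ++ W) := by
          rw [← he, List.append_assoc, List.append_assoc]
          congr 1
          rw [show [false] ++ W0 = W by rw [hs]; rfl]
        rw [e]
        exact h1
      refine decH_LY h2 ⟨W0 ++ (List.replicate k W).flatten, ?_⟩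
        ⟨(List.replicate k W).flatten ++ W1, ?_⟩
      · rw [pw_succ352]
        exact congrArg (fun t => t ++ (List.replicate k W).flatten) hs
      · rw [pw_succ'352, List.append_assoc]
        congr 1
    obtain ⟨W', hLW', hW'⟩ := key 0
    have e1 : (List.replicate (0 + 1) W).flatten = W := by
      rw [pw_succ352]
      simp
    rw [e1] at hW'
    have hne' : W' ≠ [] := by
      rintro rfl
      exact hne hW'
    have hpal : W'.reverse = W' := by
      apply ap_H_injective
      rw [ap_H_reverse, ← hW', hW]
    have hlen : W'.length < n := by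
      have h3 := ap_H_length352 W'
      rw [← hW', hn] at h3
      have h4 : 0 < W'.length := List.length_pos_iff.2 hne'
      omega
    refine ih W'.length hlen W' hpal hne' ?_ rfl
    intro k
    cases k with
    | zero => exact h 0
    | succ k =>
      obtain ⟨z, hz, hzk⟩ := key k
      have h5 : z = (List.replicate (k + 1) W').flatten := by
        apply ap_H_injective
        rw [← hzk, ap_pw352, ← hW']
      rw [← h5]
      exact hz

theorem pow_not_LX (W : List (Fin 3)) (hW : W.reverse = W) (hne : W ≠ [])
    (h : ∀ k, LX (List.replicate k W).flatten) : False := by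
  obtain ⟨a, W0, W1, hs, he⟩ := pal_ends352 hW hne
  have haa : LX [a, a] := by
    have h2 := h 2
    have e2 : (List.replicate 2 W).flatten = W ++ W := by
      rw [pw_two352 W 0]
      simp
    rw [e2] at h2
    refine LX_infix h2 ⟨W1, W0, ?_⟩
    have e3 : W1 ++ [a, a] ++ W0 = (W1 ++ [a]) ++ (a :: W0) := by simp
    rw [e3, ← he, ← hs]
  have ha : a = 0 := by
    have h1 : a ≠ 1 := by
      rintro rfl
      exact not_LX_of_mem_FBX (by simp [FBX]) haa
    have h2 : a ≠ 2 := by
      rintro rfl
      exact not_LX_of_mem_FBX (by simp [FBX]) haa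
    revert h1 h2
    revert a
    intro a _ _ _ h1 h2
    fin_cases a
    · rfl
    · exact absurd rfl h1
    · exact absurd rfl h2
  subst ha
  have key : ∀ k, ∃ z, LY z ∧ (List.replicate (k + 1) W).flatten = ap K z := by
    intro k
    obtain ⟨y, hy, p, q, hpq⟩ := h (k + 1 + 2)
    rw [pw_two352 W (k + 1)] at hpq
    have hE : ap K y = (p ++ W) ++ ((List.replicate (k + 1) W).flatten ++ (W ++ q)) := by
      rw [← hpq]
      simp only [List.append_assoc]
    have hstart : (List.replicate (k + 1) W).flatten = 0 :: (W0 ++ (List.replicate k W).flatten) := by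
      rw [pw_succ352]
      exact congrArg (fun t => t ++ (List.replicate k W).flatten) hs
    have hend : (List.replicate (k + 1) W).flatten = ((List.replicate k W).flatten ++ W1) ++ [0] := by
      rw [pw_succ'352, List.append_assoc]
      congr 1
    obtain ⟨y1, y2, hy12, h1, h2⟩ := decK y _ _ hE (Or.inr (Or.inr
      ⟨⟨p ++ W1, by rw [List.append_assoc, ← he]⟩,
        ⟨(W0 ++ (List.replicate k W).flatten) ++ (W ++ q), by rw [hstart]; rfl⟩⟩))
    obtain ⟨y3, y4, hy34, h3, h4⟩ := decK y2 _ _ h2 (Or.inr (Or.inr
      ⟨⟨_, hend⟩, ⟨W0 ++ q, congrArg (fun t => t ++ q) hs⟩⟩))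
    refine ⟨y3, LY_infix hy ⟨y1, y4, ?_⟩, h3.symm⟩
    rw [hy12, hy34, List.append_assoc]
  obtain ⟨W', hLW', hW'⟩ := key 0
  have e1 : (List.replicate (0 + 1) W).flatten = W := by
    rw [pw_succ352]
    simp
  rw [e1] at hW'
  have hne' : W' ≠ [] := by
    rintro rfl
    exact hne hW'
  have hpal : W'.reverse = W' := by
    apply ap_K_injective
    rw [ap_K_reverse, ← hW', hW]
  refine pow_not_LY W' hpal hne' ?_
  intro k
  cases k with
  | zero => exact LY_infix hLW' ⟨[], W', rfl⟩
  | succ k =>
    obtain ⟨z, hz, hzk⟩ := key k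
    have h5 : z = (List.replicate (k + 1) W').flatten := by
      apply ap_K_injective
      rw [← hzk, ap_pw352, ← hW']
    rw [← h5]
    exact hz

end J6

end Pool.Helper223.CP
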