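import Pool.Agent.Helper223.CP.Inner

namespace Pool.Helper223.CP

namespace J17
open J1 J1b

theorem cl_comm {ψ χ : Fin 3 → List (Fin 3)} {w : List (Fin 3)}
    (h : ∀ a, ψ a ++ w = w ++ χ a) (u : List (Fin 3)) : ap ψ u ++ w = w ++ ap χ u := by
  induction u with
  | nil => simp
  | cons a u ih =>
    rw [ap_cons, ap_cons, List.append_assoc, ih, ← List.append_assoc, h a, List.append_assoc]

theorem cl_len {ψ : Fin 3 → List (Fin 3)} {a : Fin 3} (h : ψ a ≠ []) (t : List (Fin 3)) :
    t.count a ≤ (ap ψ t).length := by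
  induction t with
  | nil => simp
  | cons b t ih =>
    rw [ap_cons, List.length_append, List.count_cons]
    by_cases hb : b = a
    · subst hb
      have : 1 ≤ (ψ b).length := List.length_pos_iff.mpr h
      simp only [beq_self_eq_true, if_true]
      omega
    · simp only [beq_iff_eq, hb, if_false]
      omega

theorem cl_case1 {ψ χ : Fin 3 → List (Fin 3)} {w : List (Fin 3)}
    (h : ∀ a, ψ a ++ w = w ++ χ a)
    (hL : ∀ w, LX w → LX (ap ψ w)) (hne : ∃ a, ψ a ≠ []) :
    (∀ w, LX w → LX (ap χ w)) ∧ ∃ a, χ a ≠ [] := by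
  constructor
  · intro u hu
    obtain ⟨a, ha⟩ := hne
    obtain ⟨t, ht, hc⟩ := LX_ext_many hu w.length
    have h1 : w.length ≤ (ap ψ t).length := (hc a).trans (cl_len ha t)
    have h2 : w <+: ap ψ t := by
      apply List.prefix_of_prefix_length_le (l₃ := ap ψ t ++ w) _ _ h1
      · rw [cl_comm h t]
        exact List.prefix_append _ _
      · exact List.prefix_append _ _
    have h3 : LX (ap ψ u ++ w) := by
      apply LX_infix (hL _ ht)
      rw [ap_append]
      exact ((List.prefix_append_right_inj _).mpr h2).isInfix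
    rw [cl_comm h u] at h3
    exact LX_infix h3 (List.suffix_append _ _).isInfix
  · obtain ⟨a, ha⟩ := hne
    refine ⟨a, ?_⟩
    intro h0
    have h1 := congrArg List.length (h a)
    rw [List.length_append, List.length_append, h0, List.length_nil, add_zero] at h1
    have : (ψ a).length = 0 := by omega
    exact ha (List.length_eq_zero_iff.mp this)

theorem cl_rev (ψ : Fin 3 → List (Fin 3)) (u : List (Fin 3)) :
    ap (fun a => (ψ a).reverse) u = (ap ψ u.reverse).reverse := by
  induction u with
  | nil => simp
  | cons a u ih =>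
    rw [ap_cons, ih, List.reverse_cons, ap_append, List.reverse_append]
    simp

theorem conj_lang {ψ χ : Fin 3 → List (Fin 3)} (hc : Conjugate ψ χ)
    (hL : ∀ w, LX w → LX (ap ψ w)) (hne : ∃ a, ψ a ≠ []) :
    (∀ w, LX w → LX (ap χ w)) ∧ ∃ a, χ a ≠ [] := by
  obtain ⟨w, h | h⟩ := hc
  · exact cl_case1 h hL hne
  · have h1 : ∀ a, (fun a => (ψ a).reverse) a ++ w.reverse =
        w.reverse ++ (fun a => (χ a).reverse) a := by
      intro a
      have := congrArg List.reverse (h a)
      rwa [List.reverse_append, List.reverse_append] at this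
    have h2 : ∀ v, LX v → LX (ap (fun a => (ψ a).reverse) v) := by
      intro v hv
      rw [cl_rev]
      exact LX_reverse (hL _ (LX_reverse hv))
    obtain ⟨h3, a, h4⟩ := cl_case1 h1 h2 (by
      obtain ⟨a, ha⟩ := hne
      exact ⟨a, by simpa using ha⟩)
    refine ⟨?_, a, by simpa using h4⟩
    intro v hv
    have h5 := h3 _ (LX_reverse hv)
    rw [cl_rev, List.reverse_reverse] at h5
    have h6 := LX_reverse h5
    rwa [List.reverse_reverse] at h6

end J17

namespace J17b

theorem conj_id {ψ χ : Fin 3 → List (Fin 3)} (hc : Conjugate ψ χ) (h : ∀ a, χ a = [a]) :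
    ∀ a, ψ a = [a] := by
  obtain ⟨w, hw | hw⟩ := hc
  · cases w with
    | nil =>
      intro a
      have h1 := hw a
      rw [List.append_nil, List.nil_append, h a] at h1
      exact h1
    | cons b w =>
      exfalso
      have key : ∀ a, (b :: w).getLast? = some a := by
        intro a
        have h1 := congrArg List.getLast? (hw a)
        rw [h a, List.getLast?_concat, List.getLast?_append_of_ne_nil _ (List.cons_ne_nil _ _)] at h1
        exact h1
      have h0 := key 0
      rw [key 1] at h0
      exact absurd (Option.some.inj h0) (by decide)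
  · cases w with
    | nil =>
      intro a
      have h1 := hw a
      rw [List.append_nil, List.nil_append, h a] at h1
      exact h1
    | cons b w =>
      exfalso
      have key : ∀ a, b = a := by
        intro a
        have h1 := hw a
        rw [h a, List.cons_append, List.singleton_append, List.cons.injEq] at h1
        exact h1.1
      have h0 := key 0
      rw [key 1] at h0
      exact absurd h0 (by decide)

theorem pal_half {α : Type} {p : List α} (h : List.Palindrome p) :
    ∃ r e : List α, e.length ≤ 1 ∧ p = r ++ (e ++ r.reverse) := by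
  induction h with
  | nil => exact ⟨[], [], by simp, by simp⟩
  | singleton x => exact ⟨[], [x], by simp, by simp⟩
  | cons_concat x _ ih =>
    obtain ⟨r, e, he, hr⟩ := ih
    exact ⟨x :: r, e, he, by rw [hr]; simp⟩

theorem classP_reduce {α : Type} {χ : α → List α} (h : ClassP χ) :
    ∃ (e : List α) (q : α → List α), e.length ≤ 1 ∧ (∀ a, (q a).reverse = q a) ∧
      Conjugate χ (fun a => e ++ q a) := by
  obtain ⟨p, hp, hq⟩ := h
  choose q hq1 hq2 using hq
  obtain ⟨r, e, he, hr⟩ := pal_half (List.Palindrome.of_reverse_eq hp)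
  refine ⟨e, fun a => r.reverse ++ (q a ++ r), he, fun a => ?_, r, Or.inl fun a => ?_⟩
  · have h1 : (q a).reverse = q a := hq1 a
    simp [h1]
  · rw [hq2, hr]
    simp

end J17b

namespace Fin1
open J16 J17 J17b

theorem classP'_id {ψ : Fin 3 → List (Fin 3)} (h : ClassP' ψ)
    (hL : ∀ w, LX w → LX (ap ψ w)) (hne : ∃ a, ψ a ≠ []) : ∀ a, ψ a = [a] := by
  obtain ⟨χ, hχ, hc⟩ := h
  obtain ⟨e, q, he, hq, hc2⟩ := classP_reduce hχ
  obtain ⟨hL1, hne1⟩ := conj_lang hc hL hne
  obtain ⟨hL2, hne2⟩ := conj_lang hc2 hL1 hne1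
  have h2 := inner (fun a => e ++ q a) e he q hq (fun a => rfl) hL2 hne2
  exact conj_id hc (conj_id hc2 h2)

end Fin1

end Pool.Helper223.CP
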