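import Mathlib

/-!
# The class P conjecture: the notions of the problem

Words over an alphabet `A` are lists, a morphism `A* → A*` is given by the images of the letters.
-/

namespace Pool.Helper223.CP

/-- image of a word under the morphism given by the images `f` of the letters -/
def ap {α β : Type} (f : α → List β) (w : List α) : List β := w.flatMap f

/-- first `n` letters of an infinite word -/
def pref {α : Type} (u : ℕ → α) (n : ℕ) : List α := (List.range n).map u

/-- the set of finite factors of an infinite word -/
def language {α : Type} (u : ℕ → α) : Set (List α) := {w | ∃ n, w <:+: pref u n}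

/-- a word is a palindrome if it equals its reversal -/
def IsPalindrome {α : Type} (w : List α) : Prop := w.reverse = w

/-- an infinite word is palindromic if it has infinitely many palindromic factors -/
def IsPalindromic {α : Type} (u : ℕ → α) : Prop := {w | w ∈ language u ∧ IsPalindrome w}.Infinite

/-- `φ(u) = u` for an infinite word `u`: the image of every initial segment of `u` is an initial
segment of `u`, and these images are arbitrarily long -/
def IsFixedPoint {α : Type} (φ : α → List α) (u : ℕ → α) : Prop :=
  (∀ n, ap φ (pref u n) = pref u (ap φ (pref u n)).length) ∧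
    ∀ m, ∃ n, m ≤ (ap φ (pref u n)).length

/-- primitive morphism: for some `k` every letter occurs in `φ^k` of every letter -/
def IsPrimitive {α : Type} (φ : α → List α) : Prop := ∃ k : ℕ, ∀ a b, b ∈ (ap φ)^[k] [a]

/-- `φ` and `ψ` are conjugate -/
def Conjugate {α : Type} (φ ψ : α → List α) : Prop :=
  ∃ w : List α, (∀ a, φ a ++ w = w ++ ψ a) ∨ (∀ a, w ++ φ a = ψ a ++ w)

/-- class P: `ψ(a) = p p_a` with palindromes `p`, `p_a` -/
def ClassP {α : Type} (ψ : α → List α) : Prop :=
  ∃ p : List α, IsPalindrome p ∧ ∀ a, ∃ q : List α, IsPalindrome q ∧ ψ a = p ++ q

/-- class P' : conjugate to a morphism of class P -/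
def ClassP' {α : Type} (ψ : α → List α) : Prop := ∃ χ : α → List α, ClassP χ ∧ Conjugate ψ χ

end Pool.Helper223.CP
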