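import Pool.Agent.Helper223.CP.Search

namespace Pool.Helper223.CP

namespace J7
open J1 J4

theorem LY_single (c : Bool) : LY [c] := by
  cases c with
  | false => exact ⟨0, List.infix_rfl⟩
  | true =>
    refine ⟨1, ?_⟩
    change [true] <:+: [false, true, false] ++ []
    exact ⟨[false], [false], rfl⟩

theorem descent_empty (V : Bool → List Bool) (h : EPair [] V) (h1 : ∃ r, V false = false :: r)
    (h2 : ∃ r, V true = false :: r) :
    ∃ V' : Bool → List Bool, EPair [] V' ∧ ∀ c, V c = ap H (V' c) := by
  obtain ⟨hpal, hLY⟩ := h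
  have hLY' : ∀ x, LY x → LY (ap V x) := by
    intro x hx
    have h3 := hLY x hx
    rw [List.append_nil] at h3
    exact h3
  have hst : ∀ c, ∃ r, V c = false :: r := by
    intro c
    cases c with
    | false => exact h1
    | true => exact h2
  have hen : ∀ c, ∃ r, V c = r ++ [false] := by
    intro c
    obtain ⟨r, hr⟩ := hst c
    refine ⟨r.reverse, ?_⟩
    rw [← hpal c, hr, List.reverse_cons]
  have hz : ∀ x, x ≠ [] → LY x → ∃ z, LY z ∧ ap V x = ap H z := by
    intro x hx0 hx
    obtain ⟨s, t, hst'⟩ := LY_ext hx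
    have h3 := hLY' _ hst'
    rw [ap_cons, ap_append, ap_cons, ap_nil, List.append_nil] at h3
    obtain ⟨l, hl⟩ := hen s
    obtain ⟨r, hr⟩ := hst t
    rw [hl, hr] at h3
    have e : l ++ [false] ++ (ap V x ++ false :: r) = l ++ [false] ++ ap V x ++ [false] ++ r := by
      simp
    rw [e] at h3
    refine decH_LY h3 ?_ ?_
    · obtain ⟨c, y, rfl⟩ := List.exists_cons_of_ne_nil hx0
      obtain ⟨r', hr'⟩ := hst c
      exact ⟨r' ++ ap V y, by rw [ap_cons, hr', List.cons_append]⟩
    · obtain ⟨y, c, rfl⟩ : ∃ y c, x = y ++ [c] :=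
        ⟨x.dropLast, x.getLast hx0, (List.dropLast_append_getLast hx0).symm⟩
      obtain ⟨r', hr'⟩ := hen c
      exact ⟨ap V y ++ r', by
        rw [ap_append, ap_cons, ap_nil, List.append_nil, hr', List.append_assoc]⟩
  have hex : ∀ c, ∃ z, V c = ap H z := by
    intro c
    obtain ⟨z, _, hz'⟩ := hz [c] (List.cons_ne_nil _ _) (LY_single c)
    rw [ap_cons, ap_nil, List.append_nil] at hz'
    exact ⟨z, hz'⟩
  choose V' hV' using hex
  have hap : ∀ x, ap V x = ap H (ap V' x) := by
    intro x
    induction x with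
    | nil => rfl
    | cons c x ih => rw [ap_cons, ap_cons, ap_append, ← hV', ih]
  refine ⟨V', ⟨fun c => ?_, fun x hx => ?_⟩, hV'⟩
  · apply ap_H_injective
    rw [ap_H_reverse, ← hV', hpal]
  · rw [List.append_nil]
    change LY (ap V' x)
    by_cases hx0 : x = []
    · subst hx0
      exact LY_infix (LY_single false) ⟨[], [false], rfl⟩
    · obtain ⟨z, hzL, hz'⟩ := hz x hx0 hx
      rw [hap] at hz'
      rw [ap_H_injective hz']
      exact hzL

end J7

namespace J8
open Sr J1 J1b J6 J7

theorem Y_empty_pow (V : Bool → List Bool) (b : Bool) (hb : V b = []) (x : List Bool) :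
    ap V x = (List.replicate (x.count (!b)) (V (!b))).flatten := by
  induction x with
  | nil => simp
  | cons a x ih =>
    rw [ap_cons, ih]
    by_cases hab : a = b
    · subst hab
      rw [hb, List.nil_append, List.count_cons_of_ne (by cases a <;> decide)]
    · have ha : a = !b := by
        cases a <;> cases b <;> simp_all
      rw [ha, List.count_cons_self, List.replicate_succ, List.flatten_cons]

theorem Y_empty_contra (V : Bool → List Bool) (h : EPair [] V) (b : Bool) (hb : V b = [])
    (hne : V (!b) ≠ []) : False := by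
  apply pow_not_LY (V (!b)) (h.1 _) hne
  intro k
  obtain ⟨w, hw, h1, h2⟩ := LY_many k
  have hk : k ≤ w.count (!b) := by
    cases b
    · exact h2
    · exact h1
  have h3 := h.2 w hw
  have h4 : (fun c => ([] : List Bool) ++ V c) = V := by
    funext c
    rfl
  rw [h4, List.append_nil, Y_empty_pow V b hb w] at h3
  obtain ⟨m, hm⟩ := Nat.exists_eq_add_of_le hk
  apply LY_infix h3
  rw [hm, List.replicate_add, List.flatten_append]
  exact List.IsPrefix.isInfix (List.prefix_append _ _)

theorem Y_empty_len (w : List Bool) : 3 * w.length ≤ (ap H w).length := by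
  induction w with
  | nil => simp
  | cons a w ih =>
    rw [ap_cons, List.length_append, List.length_cons]
    cases a <;> simp [H] <;> omega

theorem Y_empty_aux (n : ℕ) : ∀ V : Bool → List Bool, (V false).length + (V true).length ≤ n →
    EPair [] V → (V false ≠ [] ∨ V true ≠ []) → ∃ N, ∀ c, V c = Hn N [c] := by
  induction n with
  | zero =>
    intro V hlen h hne
    exfalso
    rcases hne with hne | hne
    · exact hne (List.length_eq_zero_iff.1 (by omega))
    · exact hne (List.length_eq_zero_iff.1 (by omega))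
  | succ n ih =>
    intro V hlen h hne
    have hf : V false ≠ [] := by
      intro h0
      rcases hne with hne | hne
      · exact hne h0
      · exact Y_empty_contra V h false h0 hne
    have ht : V true ≠ [] := by
      intro h0
      rcases hne with hne | hne
      · exact Y_empty_contra V h true h0 hne
      · exact hne h0
    rcases check_empty V h with h0 | h0 | ⟨h1, h2⟩ | ⟨h1, h2⟩
    · exact absurd h0 hf
    · exact absurd h0 ht
    · refine ⟨0, fun c => ?_⟩
      cases c
      · exact h1
      · exact h2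
    · obtain ⟨V', hV', hV'e⟩ := descent_empty V h h1 h2
      have hne' : ∀ c, V c ≠ [] → V' c ≠ [] := by
        intro c hc h0
        apply hc
        rw [hV'e c, h0]
        rfl
      have hlen' : ∀ c, V c ≠ [] → (V' c).length + 1 ≤ (V c).length := by
        intro c hc
        have e1 := Y_empty_len (V' c)
        rw [← hV'e c] at e1
        have e2 : 0 < (V' c).length := List.length_pos_iff.2 (hne' c hc)
        omega
      obtain ⟨N, hN⟩ := ih V' (by have := hlen' false hf; have := hlen' true ht; omega) hV'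
        (Or.inl (hne' false hf))
      refine ⟨N + 1, fun c => ?_⟩
      rw [hV'e c, hN c]
      rfl

theorem Y_empty (V : Bool → List Bool) (h : EPair [] V) (hne : V false ≠ [] ∨ V true ≠ []) :
    ∃ N, ∀ c, V c = Hn N [c] :=
  Y_empty_aux _ V le_rfl h hne

end J8

namespace J9
open J1 J4

theorem cus_len (z : List Bool) : z.length ≤ (ap H z).length := by
  induction z with
  | nil => simp
  | cons a z ih => cases a <;> simp [H] <;> omega

theorem cus_LY_single (c : Bool) : LY [c] := by
  cases c
  · exact ⟨0, by simp [Hn]⟩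
  · refine ⟨1, ?_⟩
    show [true] <:+: ap H [false]
    exact ⟨[false], [false], by simp [H]⟩

theorem descent_A (V : Bool → List Bool) (h : EPair [false] V)
    (hV : ∀ c, ∃ m, V c = [true, false] ++ m ++ [false, true] ∧ (m = [] ∨ ∃ r, m = false :: r)) :
    ∃ V' : Bool → List Bool, EPair [true] V' ∧ ∀ c, (V' c).length < (V c).length := by
  obtain ⟨hpal, hLY⟩ := h
  choose m hm hm2 using hV
  have hmrev : ∀ c, (m c).reverse = m c := by
    intro c
    have h1 := hpal c
    rw [hm c] at h1
    simpa using h1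
  -- last letter
  have hmlast : ∀ c, m c = [] ∨ ∃ r, m c = r ++ [false] := by
    intro c
    rcases hm2 c with h1 | ⟨r, h1⟩
    · exact Or.inl h1
    · right
      refine ⟨r.reverse, ?_⟩
      rw [← hmrev c, h1, List.reverse_cons]
  have hz : ∀ c, ∃ z, m c = ap H z := by
    intro c
    rcases hm2 c with h1 | ⟨r, h1⟩
    · exact ⟨[], by rw [h1]; rfl⟩
    · have h2 := hLY [c] (cus_LY_single c)
      have h3 : LY ([false, true] ++ [false] ++ m c ++ [false] ++ [true, false]) := by
        have e : ap (fun c => [false] ++ V c) [c] ++ [false]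
            = [false, true] ++ [false] ++ m c ++ [false] ++ [true, false] := by
          simp [hm c]
        rw [e] at h2
        exact h2
      obtain ⟨z, _, hz⟩ := decH_LY h3 ⟨r, h1⟩ (by
        rcases hmlast c with h4 | h4
        · rw [h1] at h4; exact absurd h4 (by simp)
        · exact h4)
      exact ⟨z, hz⟩
  choose V' hV' using hz
  have hid : ∀ x, [false, true] ++ ap (fun c => [false] ++ V c) x
      = ap H (ap (fun c => [true] ++ V' c) x) ++ [false, true] := by
    intro x
    induction x with
    | nil => simp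
    | cons c x ih =>
      have e1 : [false, true] ++ ap (fun c => [false] ++ V c) (c :: x)
          = [false, true, false, true, false] ++ ap H (V' c) ++
            ([false, true] ++ ap (fun c => [false] ++ V c) x) := by
        simp [hm c, hV' c]
      rw [e1, ih]
      simp [H]
  refine ⟨V', ⟨?_, ?_⟩, ?_⟩
  · intro c
    apply ap_H_injective
    rw [ap_H_reverse, ← hV' c, hmrev c]
  · intro x hx
    obtain ⟨s, t, hst⟩ := LY_ext hx
    have h2 := hLY _ hst
    obtain ⟨l, hl⟩ : ∃ l, [false, true, false] ++ m s = l ++ [false] := by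
      rcases hmlast s with h4 | ⟨r, h4⟩
      · exact ⟨[false, true], by rw [h4]; rfl⟩
      · exact ⟨[false, true, false] ++ r, by rw [h4]; simp⟩
    obtain ⟨r, hr⟩ : ∃ r, m t ++ [false, true, false] = [false] ++ r := by
      rcases hm2 t with h4 | ⟨r, h4⟩
      · exact ⟨[true, false], by rw [h4]; rfl⟩
      · exact ⟨r ++ [false, true, false], by rw [h4]; simp⟩
    have e1 : ap (fun c => [false] ++ V c) (s :: (x ++ [t])) ++ [false]
        = ([false, true, false] ++ m s) ++ ([false, true] ++ ap (fun c => [false] ++ V c) x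
            ++ [false, true, false]) ++ (m t ++ [false, true, false]) := by
      simp [hm s, hm t]
    rw [e1, hl, hr] at h2
    have h3 : LY (l ++ [false] ++ ([false, true] ++ ap (fun c => [false] ++ V c) x
            ++ [false, true, false]) ++ [false] ++ r) := by
      have e2 : l ++ [false] ++ ([false, true] ++ ap (fun c => [false] ++ V c) x
            ++ [false, true, false]) ++ [false] ++ r
          = l ++ [false] ++ ([false, true] ++ ap (fun c => [false] ++ V c) x
            ++ [false, true, false]) ++ ([false] ++ r) := by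
        simp
      rw [e2]; exact h2
    obtain ⟨z, hz1, hz2⟩ := decH_LY h3 ⟨[true] ++ ap (fun c => [false] ++ V c) x
            ++ [false, true, false], by simp⟩
        ⟨[false, true] ++ ap (fun c => [false] ++ V c) x ++ [false, true], by simp⟩
    have e3 : [false, true] ++ ap (fun c => [false] ++ V c) x ++ [false, true, false]
        = ap H (ap (fun c => [true] ++ V' c) x ++ [true]) := by
      rw [hid x]
      simp [H]
    rw [e3] at hz2
    have := ap_H_injective hz2
    rw [this]
    exact hz1
  · intro c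
    have h1 := cus_len (V' c)
    rw [hm c, hV' c]
    simp only [List.length_append, List.length_cons, List.length_nil]
    omega

end J9

namespace J10
open J1 J4

theorem len_H_10544 (w : List Bool) : w.length ≤ (ap H w).length := by
  induction w with
  | nil => simp
  | cons a w ih =>
    rw [ap_cons, List.length_append, List.length_cons]
    cases a <;> simp only [H, List.length_cons, List.length_nil] <;> omega

theorem LY_single_10544 (c : Bool) : LY [c] := by
  cases c
  · exact ⟨0, List.infix_refl _⟩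
  · refine ⟨1, ?_⟩
    show [true] <:+: ap H (Hn 0 [false])
    exact ⟨[false], [false], rfl⟩

theorem rho_10544 (V V' : Bool → List Bool)
    (h : ∀ c, V c = [false] ++ ap H (V' c) ++ [false]) (x : List Bool) :
    [false] ++ ap (fun c => [true] ++ V c) x = ap H (ap (fun c => [false] ++ V' c) x) ++ [false] := by
  induction x with
  | nil => rfl
  | cons c x ih =>
    have e1 : [false] ++ ap (fun c => [true] ++ V c) (c :: x) =
        [false, true, false] ++ ap H (V' c) ++ ([false] ++ ap (fun c => [true] ++ V c) x) := by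
      rw [ap_cons, h c]
      simp
    have e2 : ap H (ap (fun c => [false] ++ V' c) (c :: x)) ++ [false] =
        [false, true, false] ++ ap H (V' c) ++
          (ap H (ap (fun c => [false] ++ V' c) x) ++ [false]) := by
      rw [ap_cons, ap_append, ap_append]
      simp [H]
    rw [e1, e2, ih]

theorem descent_C (V : Bool → List Bool) (h : EPair [true] V)
    (hV : ∀ c, ∃ m, V c = [false] ++ m ++ [false] ∧ (m = [] ∨ ∃ r, m = false :: r)) :
    ∃ V' : Bool → List Bool, EPair [false] V' ∧ ∀ c, (V' c).length < (V c).length := by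
  have hm : ∀ c, ∃ m, V c = [false] ++ m ++ [false] ∧ m.reverse = m ∧
      (m = [] ∨ ((∃ r, m = false :: r) ∧ ∃ r, m = r ++ [false])) := by
    intro c
    obtain ⟨m, h1, h2⟩ := hV c
    have h3 : m.reverse = m := by
      have h4 := h.1 c
      rw [h1, List.reverse_append, List.reverse_append] at h4
      simpa using h4
    refine ⟨m, h1, h3, ?_⟩
    rcases h2 with h2 | ⟨r, h2⟩
    · exact Or.inl h2
    · refine Or.inr ⟨⟨r, h2⟩, r.reverse, ?_⟩
      rw [← h3, h2, List.reverse_cons]
  choose m hm1 hm2 hm3 using hm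
  have hV' : ∀ c, ∃ z, m c = ap H z := by
    intro c
    rcases hm3 c with h1 | ⟨h1, h2⟩
    · exact ⟨[], by rw [h1]; rfl⟩
    · have h3 := h.2 [c] (LY_single_10544 c)
      have h4 : ap (fun c => [true] ++ V c) [c] ++ [true] =
          [true] ++ [false] ++ m c ++ [false] ++ [true] := by
        rw [ap_cons, ap_nil, hm1 c]
        simp
      rw [h4] at h3
      obtain ⟨z, _, hz⟩ := decH_LY h3 h1 h2
      exact ⟨z, hz⟩
  choose V' hV'' using hV'
  have hVV : ∀ c, V c = [false] ++ ap H (V' c) ++ [false] := fun c => by rw [← hV'']; exact hm1 c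
  refine ⟨V', ⟨?_, ?_⟩, ?_⟩
  · intro c
    apply ap_H_injective
    rw [ap_H_reverse, ← hV'', hm2]
  · intro x hx
    obtain ⟨s, t, hst⟩ := LY_ext hx
    have h1 := h.2 _ hst
    obtain ⟨u, hu⟩ : ∃ u, V s = u ++ [false] ++ [false] := by
      rcases hm3 s with h2 | ⟨_, r, h2⟩
      · exact ⟨[], by rw [hm1 s, h2]; rfl⟩
      · exact ⟨[false] ++ r, by rw [hm1 s, h2]; simp⟩
    obtain ⟨u', hu'⟩ : ∃ u', V t = [false] ++ [false] ++ u' := by
      rcases hm3 t with h2 | ⟨⟨r, h2⟩, _⟩
      · exact ⟨[], by rw [hm1 t, h2]; rfl⟩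
      · exact ⟨r ++ [false], by rw [hm1 t, h2]; simp⟩
    have h3 : ap (fun c => [true] ++ V c) (s :: (x ++ [t])) ++ [true] =
        ([true] ++ u) ++ [false] ++ ([false] ++ ap (fun c => [true] ++ V c) x ++ [true, false]) ++
          [false] ++ (u' ++ [true]) := by
      rw [ap_cons, ap_append, ap_cons, ap_nil, hu, hu']
      simp
    rw [h3] at h1
    obtain ⟨z, hz, hz2⟩ := decH_LY h1 ⟨_, rfl⟩
      ⟨[false] ++ ap (fun c => [true] ++ V c) x ++ [true], by simp⟩
    have h4 : [false] ++ ap (fun c => [true] ++ V c) x ++ [true, false] =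
        ap H (ap (fun c => [false] ++ V' c) x ++ [false]) := by
      rw [rho_10544 V V' hVV x, ap_append]
      simp [H]
    rw [h4] at hz2
    have h5 := ap_H_injective hz2
    rw [← h5] at hz
    exact hz
  · intro c
    rw [hVV c, List.length_append, List.length_append]
    have := len_H_10544 (V' c)
    simp only [List.length_cons, List.length_nil]
    omega

end J10

namespace J10b
open Sr J9 J10

theorem Y_letter (e : Bool) (V : Bool → List Bool) (h : EPair [e] V) : False := by
  have key : ∀ n : ℕ, ∀ (e : Bool) (V : Bool → List Bool), (V false).length = n → EPair [e] V → False := by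
    intro n
    induction n using Nat.strong_induction_on with
    | _ n ih =>
      intro e V hn h
      cases e with
      | false =>
        obtain ⟨V', h1, h2⟩ := descent_A V h (check_A V h)
        exact ih _ (by rw [← hn]; exact h2 false) true V' rfl h1
      | true =>
        obtain ⟨V', h1, h2⟩ := descent_C V h (check_C V h)
        exact ih _ (by rw [← hn]; exact h2 false) false V' rfl h1
  exact key _ e V rfl h

end J10b

namespace J11
open J1 J1b J3 J5 J6 Sr

theorem ap_rep_304 (V : Bool → List (Fin 3)) (b : Bool) (hb : V (!b) = []) (x : List Bool) :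
    ap V x = (List.replicate (x.count b) (V b)).flatten := by
  induction x with
  | nil => simp
  | cons c x ih =>
    rw [ap_cons, ih]
    by_cases hc : c = b
    · subst hc
      rw [List.count_cons_self, List.replicate_succ, List.flatten_cons]
    · have hc' : c = !b := by
        cases c <;> cases b <;> simp_all
      rw [hc', hb, List.nil_append, List.count_cons_of_ne (by cases b <;> simp)]

theorem flatten_prefix_304 (W : List (Fin 3)) {k n : ℕ} (h : k ≤ n) :
    (List.replicate k W).flatten <:+: (List.replicate n W).flatten := by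
  obtain ⟨m, rfl⟩ := Nat.exists_eq_add_of_le h
  rw [List.replicate_add, List.flatten_append]
  exact (List.prefix_append _ _).isInfix

theorem ap_comp_304 (V : Bool → List (Fin 3)) (V' : Bool → List Bool)
    (h : ∀ c, V c = ap K (V' c)) (x : List Bool) : ap V x = ap K (ap V' x) := by
  induction x with
  | nil => rfl
  | cons c x ih => rw [ap_cons, ap_cons, ap_append, ih, h c]

theorem LY_one_304 (c : Bool) : LY [c] := by
  cases c
  · exact ⟨0, List.infix_refl _⟩
  · exact ⟨1, [false], [false], rfl⟩

theorem X_empty (V : Bool → List (Fin 3)) (h : XPair [] V) (hne : V false ≠ [] ∨ V true ≠ []) :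
    ∃ V' : Bool → List Bool, EPair [] V' ∧ (∀ c, V c = ap K (V' c)) := by
  obtain ⟨hpal, hLX⟩ := h
  have hLX' : ∀ x, LY x → LX (ap V x) := by
    intro x hx
    have := hLX x hx
    rw [List.append_nil] at this
    exact this
  -- nonempty
  have key : ∀ b : Bool, V (!b) = [] → V b ≠ [] → False := by
    intro b hb hb'
    refine pow_not_LX (V b) (hpal b) hb' (fun k => ?_)
    obtain ⟨w, hw, h1, h2⟩ := LY_many k
    have h3 := hLX' w hw
    rw [ap_rep_304 V b hb w] at h3
    refine LX_infix h3 (flatten_prefix_304 _ ?_)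
    cases b
    · exact h1
    · exact h2
  have hf : V false ≠ [] := by
    intro h0
    rcases hne with h1 | h1
    · exact h1 h0
    · exact key true h0 h1
  have ht : V true ≠ [] := by
    intro h0
    rcases hne with h1 | h1
    · exact key false h0 h1
    · exact h1 h0
  rcases checkX_empty V ⟨hpal, hLX⟩ with h0 | h0 | ⟨⟨rf, hrf⟩, hrt⟩
  · exact absurd h0 hf
  · exact absurd h0 ht
  -- ends
  have hef : ∃ l, V false = l ++ [1, 0] := by
    refine ⟨rf.reverse, ?_⟩
    rw [← hpal false, hrf]
    simp
  have hcase : ∀ c d : Bool, LY [c, d] → (∃ l, V c = l ++ [1, 0]) ∨ (∃ r, V d = 0 :: 1 :: r) := by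
    intro c d hcd
    cases c
    · exact Or.inl hef
    · cases d
      · exact Or.inr ⟨rf, hrf⟩
      · exact absurd hcd (not_LY_of_mem_FBY (by simp [FBY]))
  have main : ∀ x, LY x → x ≠ [] → ∃ z, LY z ∧ ap V x = ap K z := by
    intro x hx hx0
    obtain ⟨s, t, hst⟩ := LY_ext hx
    have h1 := hLX' _ hst
    obtain ⟨y, hy, p, q, hpq⟩ := h1
    rw [ap_cons, ap_append, ap_cons, ap_nil, List.append_nil] at hpq
    have h2 : ap K y = (p ++ V s) ++ (ap V x ++ (V t ++ q)) := by
      rw [← hpq]
      simp only [List.append_assoc]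
    obtain ⟨c, x', hx'⟩ := List.exists_cons_of_ne_nil hx0
    have hc1 : LY [s, c] := by
      refine LY_infix hst ?_
      rw [hx']
      exact ⟨[], x' ++ [t], by simp⟩
    obtain ⟨y1, y2, hy12, hy1, hy2⟩ := decK y _ _ h2 (by
      rcases hcase s c hc1 with ⟨l, hl⟩ | ⟨r, hr⟩
      · left
        exact ⟨p ++ l, by rw [hl, List.append_assoc]⟩
      · right; left
        refine ⟨r ++ (ap V x' ++ (V t ++ q)), ?_⟩
        rw [hx', ap_cons, hr]
        simp)
    obtain ⟨x'', d, hx''⟩ : ∃ x'' d, x = x'' ++ [d] :=
      ⟨x.dropLast, x.getLast hx0, (List.dropLast_append_getLast hx0).symm⟩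
    have hc2 : LY [d, t] := by
      refine LY_infix hst ?_
      rw [hx'']
      exact ⟨s :: x'', [], by simp⟩
    obtain ⟨y3, y4, hy34, hy3, hy4⟩ := decK y2 _ _ hy2 (by
      rcases hcase d t hc2 with ⟨l, hl⟩ | ⟨r, hr⟩
      · left
        refine ⟨ap V x'' ++ l, ?_⟩
        rw [hx'', ap_append, ap_cons, ap_nil, List.append_nil, hl, List.append_assoc]
      · right; left
        exact ⟨r ++ q, by rw [hr]; rfl⟩)
    refine ⟨y3, LY_infix hy ?_, hy3.symm⟩
    rw [hy12, hy34]
    exact ⟨y1, y4, by simp only [List.append_assoc]⟩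
  have hex : ∀ c, ∃ z, LY z ∧ V c = ap K z := by
    intro c
    obtain ⟨z, hz, hz'⟩ := main [c] (LY_one_304 c) (by simp)
    rw [ap_cons, ap_nil, List.append_nil] at hz'
    exact ⟨z, hz, hz'⟩
  choose V' hV' hVK using hex
  refine ⟨V', ⟨fun c => ?_, fun x hx => ?_⟩, hVK⟩
  · apply ap_K_injective
    rw [ap_K_reverse, ← hVK, hpal]
  · rw [List.append_nil]
    show LY (ap V' x)
    by_cases hx0 : x = []
    · rw [hx0, ap_nil]
      exact LY_infix (LY_one_304 false) (List.nil_infix)
    · obtain ⟨z, hz, hz'⟩ := main x hx hx0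
      rw [ap_comp_304 V V' hVK x] at hz'
      rw [ap_K_injective hz']
      exact hz

end J11

namespace J12
open J1 J5

theorem X_a_LY (c : Bool) : LY [c] := by
  cases c with
  | false => exact ⟨0, List.infix_refl _⟩
  | true => exact ⟨1, [false], [false], rfl⟩

theorem X_a (V : Bool → List (Fin 3)) (h : XPair [0] V)
    (hV : ∀ c, ∃ m, V c = [2] ++ m ++ [2] ∧ ∃ r, m = 0 :: 1 :: r) :
    ∃ V' : Bool → List Bool, EPair [true] V' := by
  choose m hm hr using hV
  -- palindromes
  have hmrev : ∀ c, (m c).reverse = m c := by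
    intro c
    have h1 := h.1 c
    rw [hm c] at h1
    simp only [List.reverse_append, List.reverse_cons, List.reverse_nil, List.nil_append,
      List.cons_append] at h1
    have h2 := List.cons.inj h1
    exact List.append_cancel_right h2.2
  have hend : ∀ c, ∃ l', m c = l' ++ [1, 0] := by
    intro c
    obtain ⟨r, hr'⟩ := hr c
    refine ⟨r.reverse, ?_⟩
    have h1 := hmrev c
    rw [← h1, hr']
    simp
  -- decoding of m
  have hdec : ∀ c, ∃ v, ap K v = m c := by
    intro c
    obtain ⟨y, hy, s, t, hst⟩ := h.2 [c] (X_a_LY c)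
    have h1 : ap K y = (s ++ [0, 2]) ++ (m c ++ ([2, 0] ++ t)) := by
      rw [← hst, ap_cons, ap_nil, hm c]
      simp
    obtain ⟨r, hr'⟩ := hr c
    obtain ⟨y1, y2, -, -, h2⟩ := decK y _ _ h1 (Or.inr (Or.inl ⟨r ++ ([2, 0] ++ t), by
      rw [hr']; simp⟩))
    obtain ⟨l', hl'⟩ := hend c
    obtain ⟨y3, y4, -, h3, -⟩ := decK y2 _ _ h2 (Or.inl ⟨l', hl'⟩)
    exact ⟨y3, h3⟩
  choose V' hV' using hdec
  have hrho : ∀ x : List Bool, [2] ++ ap (fun c => [0] ++ V c) x =
      ap K (ap (fun c => [true] ++ V' c) x) ++ [2] := by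
    intro x
    induction x with
    | nil => rfl
    | cons c x ih =>
      rw [ap_cons, ap_cons, ap_append, ap_append, hm c, hV' c]
      have h1 : ([2] : List (Fin 3)) ++ ([0] ++ ([2] ++ m c ++ [2]) ++ ap (fun c => [0] ++ V c) x) =
          [2, 0, 2] ++ m c ++ ([2] ++ ap (fun c => [0] ++ V c) x) := by simp
      rw [h1, ih]
      simp [K]
  refine ⟨V', fun c => ?_, fun x hx => ?_⟩
  · apply ap_K_injective
    rw [ap_K_reverse, hV' c, hmrev c]
  · obtain ⟨s, t, hst⟩ := LY_ext hx
    obtain ⟨y, hy, p, q, hpq⟩ := h.2 _ hst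
    have h1 : ap K y = (p ++ [0, 2] ++ m s) ++ (([2] ++ ap (fun c => [0] ++ V c) x ++ [0, 2]) ++
        (m t ++ ([2, 0] ++ q))) := by
      rw [← hpq, ap_cons, ap_append, ap_cons, ap_nil, hm s, hm t]
      simp
    obtain ⟨l', hl'⟩ := hend s
    obtain ⟨y1, y2, hy12, -, h2⟩ := decK y _ _ h1 (Or.inl ⟨p ++ [0, 2] ++ l', by
      rw [hl']; simp⟩)
    obtain ⟨r, hr'⟩ := hr t
    obtain ⟨y3, y4, hy34, h3, -⟩ := decK y2 _ _ h2 (Or.inr (Or.inl ⟨r ++ ([2, 0] ++ q), by
      rw [hr']; simp⟩))
    have h4 : y3 = ap (fun c => [true] ++ V' c) x ++ [true] := by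
      apply ap_K_injective
      rw [h3, hrho, ap_append]
      simp [K]
    rw [← h4]
    refine LY_infix hy ⟨y1, y4, ?_⟩
    rw [hy12, hy34, List.append_assoc]

end J12

namespace J13
open J1 J5

theorem X_b (V : Bool → List (Fin 3)) (h : XPair [1] V)
    (hV : ∀ c, ∃ m, V c = [0] ++ m ++ [0]) :
    ∃ V' : Bool → List Bool, EPair [false] V' := by
  obtain ⟨hpal, hlang⟩ := h
  have hletter : ∀ c : Bool, LY [c] := by
    intro c
    cases c
    · exact ⟨0, [], [], rfl⟩
    · exact ⟨1, [false], [false], rfl⟩
  -- decoding of the middle words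
  have hdec : ∀ c, ∃ v : List Bool, V c = [0] ++ ap K v ++ [0] := by
    intro c
    obtain ⟨m, hm⟩ := hV c
    obtain ⟨y, hy, s, t, hst⟩ := hlang [c] (hletter c)
    have h1 : ap K y = (s ++ [1, 0]) ++ (m ++ (0 :: 1 :: t)) := by
      rw [← hst]
      simp [hm]
    obtain ⟨y1, y2, _, _, hy2⟩ := decK y _ _ h1 (Or.inl ⟨s, rfl⟩)
    obtain ⟨y3, y4, _, hy3, _⟩ := decK y2 _ _ hy2 (Or.inr (Or.inl ⟨t, rfl⟩))
    exact ⟨y3, by rw [hy3]; exact hm⟩
  choose V' hV' using hdec
  have hrho : ∀ x : List Bool, (0 : Fin 3) :: ap (fun c => [1] ++ V c) x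
      = ap K (ap (fun c => [false] ++ V' c) x) ++ [0] := by
    intro x
    induction x with
    | nil => rfl
    | cons c x ih =>
      have e1 : (0 : Fin 3) :: ap (fun c => [1] ++ V c) (c :: x)
          = [0, 1, 0] ++ ap K (V' c) ++ ((0 : Fin 3) :: ap (fun c => [1] ++ V c) x) := by
        rw [ap_cons, hV' c]
        simp
      rw [e1, ih]
      simp [K]
  refine ⟨V', ?_, ?_⟩
  · intro c
    apply ap_K_injective
    rw [ap_K_reverse]
    have h1 := hpal c
    rw [hV' c] at h1
    simpa using h1
  · intro x hx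
    obtain ⟨s, t, hst⟩ := LY_ext hx
    obtain ⟨y, hy, S, T, hST⟩ := hlang _ hst
    have hX : (0 : Fin 3) :: (ap (fun c => [1] ++ V c) x ++ [1, 0])
        = ap K (ap (fun c => [false] ++ V' c) x ++ [false]) := by
      rw [← List.cons_append, hrho x]
      simp [K]
    have hex : ∃ r, ap (fun c => [1] ++ V c) x ++ [1, 0] = (1 : Fin 3) :: r := by
      cases x with
      | nil => exact ⟨[0], rfl⟩
      | cons c x => exact ⟨V c ++ ap (fun c => [1] ++ V c) x ++ [1, 0], by simp⟩
    have h1 : ap K y = (S ++ ([1, 0] ++ ap K (V' s))) ++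
        (((0 : Fin 3) :: (ap (fun c => [1] ++ V c) x ++ [1, 0])) ++
          (ap K (V' t) ++ ([0, 1] ++ T))) := by
      rw [← hST, ap_cons, ap_append, ap_cons, ap_nil, hV' s, hV' t]
      simp
    obtain ⟨r, hr⟩ := hex
    obtain ⟨y1, y2, hy12, _, hy2⟩ := decK y _ _ h1
      (Or.inr (Or.inl ⟨r ++ (ap K (V' t) ++ ([0, 1] ++ T)), by rw [hr]; simp⟩))
    obtain ⟨l, hl⟩ : ∃ l, (0 : Fin 3) :: (ap (fun c => [1] ++ V c) x ++ [1, 0]) = l ++ [1, 0] :=
      ⟨0 :: ap (fun c => [1] ++ V c) x, by simp⟩
    obtain ⟨y3, y4, hy34, hy3, _⟩ := decK y2 _ _ hy2 (Or.inl ⟨l, hl⟩)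
    rw [hX] at hy3
    have h5 := ap_K_injective hy3
    rw [← h5]
    apply LY_infix hy
    exact ⟨y1, y4, by rw [hy12, hy34]; simp⟩

end J13

end Pool.Helper223.CP
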