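import Pool.Agent.Helper223.CP.Basics

namespace Pool.Helper223.CP

namespace J14
open J1 J3 J4

theorem ap_H_parity (w : List Bool) : (ap H w).length % 2 = w.length % 2 := by
  induction w with
  | nil => rfl
  | cons c w ih =>
    cases c <;> simp only [ap_cons, H, List.length_append, List.length_cons, List.length_nil] <;>
      omega

theorem Hn_parity (N : ℕ) (w : List Bool) : (Hn N w).length % 2 = w.length % 2 := by
  induction N with
  | zero => rfl
  | succ N ih => show (ap H (Hn N w)).length % 2 = _; rw [ap_H_parity, ih]

theorem Hn_len_le (N : ℕ) : (Hn N [false]).length ≤ (Hn N [true]).length := by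
  cases N with
  | zero => simp [Hn]
  | succ N =>
    have h1 : Hn (N + 1) [false] = Hn N [false, true, false] := Hn_add N 1 [false]
    have h2 : Hn (N + 1) [true] = Hn N ([false, true, false] ++ [true, false]) := Hn_add N 1 [true]
    rw [h1, h2, Hn_append, List.length_append]
    omega

theorem ap_H_start (w : List Bool) (hw : w ≠ []) : ∃ r, ap H w = false :: true :: r := by
  rcases w with _ | ⟨c, w⟩
  · exact absurd rfl hw
  · cases c
    · exact ⟨_, rfl⟩
    · exact ⟨_, rfl⟩

theorem Hn_ne (N : ℕ) (c : Bool) : Hn N [c] ≠ [] := by
  intro h
  have := Hn_parity N [c]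
  rw [h] at this
  simp at this

theorem Hn_start (N : ℕ) : ∃ r, Hn N [false] = false :: r := by
  cases N with
  | zero => exact ⟨[], rfl⟩
  | succ N =>
    obtain ⟨r, hr⟩ := ap_H_start (Hn N [false]) (Hn_ne N false)
    exact ⟨_, hr⟩

theorem pal_ends {w : List Bool} {c : Bool} (h : w.reverse = w) (hs : ∃ r, w = c :: r) :
    ∃ r, w = r ++ [c] := by
  obtain ⟨r, hr⟩ := hs
  refine ⟨r.reverse, ?_⟩
  rw [← h, hr]
  simp

theorem pal_of_ap {w : List Bool} (h : (ap H w).reverse = ap H w) : w.reverse = w := by
  apply ap_H_injective
  rw [ap_H_reverse, h]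

/-- last block changed from `A` to `C` -/
theorem last_block (z : List Bool) : ∀ (r w : List Bool), z ≠ [] →
    ap H z ++ true :: r = ap H w → ∃ z3 r', z = z3 ++ [false] ∧ w = z3 ++ true :: r' := by
  induction z with
  | nil => intro r w h; exact absurd rfl h
  | cons c z ih =>
    intro r w _ h
    rcases w with _ | ⟨d, w⟩
    · simp at h
    rcases z with _ | ⟨e, z⟩
    · cases c <;> cases d
      · -- ACA C.. = ACA ++ ap H w
        exfalso
        simp only [ap_cons, ap_nil, H, List.append_nil, List.cons_append, List.nil_append,
          List.cons.injEq, true_and] at h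
        rcases w with _ | ⟨f, w⟩
        · simp at h
        · obtain ⟨q, hq⟩ := ap_H_start (f :: w) (by simp)
          rw [hq] at h
          simp at h
      · exact ⟨[], w, rfl, rfl⟩
      · exfalso
        simp only [ap_cons, ap_nil, H, List.append_nil, List.cons_append, List.nil_append,
          List.cons.injEq, true_and] at h
        rcases w with _ | ⟨f, w⟩
        · simp at h
        · obtain ⟨q, hq⟩ := ap_H_start (f :: w) (by simp)
          rw [hq] at h
          simp at h
      · exfalso
        simp only [ap_cons, ap_nil, H, List.append_nil, List.cons_append, List.nil_append,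
          List.cons.injEq, true_and] at h
        rcases w with _ | ⟨f, w⟩
        · simp at h
        · obtain ⟨q, hq⟩ := ap_H_start (f :: w) (by simp)
          rw [hq] at h
          simp at h
    · obtain ⟨q, hq⟩ := ap_H_start (e :: z) (by simp)
      have hcd : c = d := by
        rw [ap_cons H c (e :: z), ap_cons H d w, hq] at h
        cases c <;> cases d
        · rfl
        · simp [H] at h
        · exfalso
          simp only [H, List.cons_append, List.nil_append, List.cons.injEq, true_and] at h
          rcases w with _ | ⟨f, w⟩
          · simp at h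
          · obtain ⟨q', hq'⟩ := ap_H_start (f :: w) (by simp)
            rw [hq'] at h
            simp at h
        · rfl
      subst hcd
      rw [ap_cons H c (e :: z), ap_cons H c w, List.append_assoc] at h
      have h2 := List.append_cancel_left h
      obtain ⟨z3, r', h3, h4⟩ := ih r w (by simp) h2
      exact ⟨c :: z3, r', by rw [h3]; rfl, by rw [h4]; rfl⟩

theorem LY_Hn (N : ℕ) : LY (Hn N [false]) := ⟨N, List.infix_rfl⟩

theorem Y_eq (N : ℕ) : ∀ (z q y : List Bool) (_ : z.reverse = z) (_ : q.reverse = q)
    (_ : y.reverse = y) (_ : z ++ q ++ z = Hn N [false]) (_ : y ++ z ++ y = Hn N [true]),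
    False := by
  induction N with
  | zero =>
    intro z q y hz hq hy h1 h2
    have l1 := congrArg List.length h1
    have l2 := congrArg List.length h2
    simp only [Hn, List.length_append, List.length_cons, List.length_nil] at l1 l2
    omega
  | succ N ih =>
    intro z q y hz hq hy h1 h2
    have l1 := congrArg List.length h1
    have l2 := congrArg List.length h2
    simp only [List.length_append] at l1 l2
    have p1 := Hn_parity (N + 1) [false]
    have p2 := Hn_parity (N + 1) [true]
    have hle := Hn_len_le (N + 1)
    simp only [List.length_cons, List.length_nil] at p1 p2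
    have hzn : z ≠ [] := by rintro rfl; simp at l1 l2; omega
    have hyn : y ≠ [] := by rintro rfl; simp at l1 l2; omega
    have hqn : q ≠ [] := by rintro rfl; simp at l1 l2; omega
    have hzs : ∃ r, z = false :: r := by
      rcases z with _ | ⟨c, z⟩
      · exact absurd rfl hzn
      · obtain ⟨r, hr⟩ := ap_H_start (Hn N [false]) (Hn_ne N false)
        have h1' : c :: z ++ q ++ c :: z = false :: true :: r := h1.trans hr
        simp only [List.cons_append, List.cons.injEq] at h1'
        exact ⟨z, by rw [h1'.1]⟩
    have hys : ∃ r, y = false :: r := by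
      rcases y with _ | ⟨c, y⟩
      · exact absurd rfl hyn
      · obtain ⟨r, hr⟩ := ap_H_start (Hn N [true]) (Hn_ne N true)
        have h2' : c :: y ++ z ++ c :: y = false :: true :: r := h2.trans hr
        simp only [List.cons_append, List.cons.injEq] at h2'
        exact ⟨y, by rw [h2'.1]⟩
    have hze := pal_ends hz hzs
    have hye := pal_ends hy hys
    obtain ⟨y1, r1, hw1, hy1, hr1⟩ := decH (Hn N [true]) y (z ++ y)
      (by rw [← List.append_assoc]; exact h2.symm) hye
      (by obtain ⟨r, hr⟩ := hzs; exact ⟨r ++ y, by rw [hr]; rfl⟩)
    obtain ⟨z1, y1', hw2, hz1, hy1'⟩ := decH r1 z y hr1 hze hys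
    have hyy : y1' = y1 := ap_H_injective (hy1'.trans hy1.symm)
    subst hyy
    have hz1p : z1.reverse = z1 := pal_of_ap (by rw [hz1]; exact hz)
    have hy1p : y1'.reverse = y1' := pal_of_ap (by rw [hy1]; exact hy)
    have hW : y1' ++ z1 ++ y1' = Hn N [true] := by rw [hw1, hw2, List.append_assoc]
    have hz1n : z1 ≠ [] := by rintro rfl; exact hzn hz1.symm
    have h1' : z ++ (q ++ z) = ap H (Hn N [false]) := by rw [← List.append_assoc]; exact h1
    rcases q with _ | ⟨c, q'⟩
    · exact hqn rfl
    cases c
    · -- q starts with A
      have hqe := pal_ends hq ⟨q', rfl⟩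
      obtain ⟨u1, u2, hu, hu1, hu2⟩ := decH (Hn N [false]) z (false :: q' ++ z) h1'.symm hze
        ⟨q' ++ z, rfl⟩
      obtain ⟨q1, u3, hu3, hq1, hu4⟩ := decH u2 (false :: q') z hu2 hqe hzs
      have e1 : u1 = z1 := ap_H_injective (hu1.trans hz1.symm)
      have e2 : u3 = z1 := ap_H_injective (hu4.trans hz1.symm)
      subst e1
      rw [e2] at hu3
      refine ih u1 q1 y1' hz1p (pal_of_ap (by rw [hq1]; exact hq)) hy1p ?_ hW
      rw [hu, hu3, List.append_assoc]
    · -- q starts with C
      rw [← hz1] at h1'
      obtain ⟨z3, r', e1, e2⟩ := last_block z1 (q' ++ ap H z1) (Hn N [false]) hz1n h1'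
      have hLY := LY_Hn N
      rw [e2] at hLY
      rcases z3 with _ | ⟨c, z4⟩
      · obtain ⟨r, hr⟩ := Hn_start N
        rw [e2] at hr
        simp at hr
      · have hc : c = false := by
          obtain ⟨r, hr⟩ := Hn_start N
          rw [e2] at hr
          simpa using (List.cons.inj hr).1
        subst hc
        rcases List.eq_nil_or_concat z4 with hz4 | ⟨z5, d, hz4⟩
        · subst hz4
          have l3 := congrArg List.length hW
          have p3 := Hn_parity N [true]
          rw [e1] at l3
          simp only [List.length_append, List.length_cons, List.length_nil] at l3 p3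
          omega
        · rw [List.concat_eq_append] at hz4
          subst hz4
          cases d
          · -- z1 = A z5 A A, palindrome, so second letter A
            have h5 : z1.reverse = z1 := hz1p
            rw [e1] at h5
            simp only [List.reverse_append, List.reverse_cons, List.reverse_nil,
              List.nil_append, List.cons_append, List.cons.injEq, true_and] at h5
            -- false :: z5.reverse ++ [false] = z5 ++ [false] ++ [false]
            have hsec : ∃ s, Hn N [false] = false :: false :: s := by
              rcases z5 with _ | ⟨f, z5⟩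
              · refine ⟨true :: r', ?_⟩
                rw [e2]; rfl
              · simp only [List.cons_append, List.cons.injEq] at h5
                refine ⟨z5 ++ [false] ++ true :: r', ?_⟩
                rw [e2, ← h5.1]
                simp
            obtain ⟨s, hs⟩ := hsec
            cases N with
            | zero => simp [Hn] at hs
            | succ N =>
              obtain ⟨r, hr⟩ := ap_H_start (Hn N [false]) (Hn_ne N false)
              have : false :: false :: s = false :: true :: r := hs.symm.trans hr
              simp at this
          · refine not_LY_of_mem_FBY (f := [true, true]) (by simp [FBY]) (LY_infix hLY ?_)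
            exact ⟨false :: z5, r', by simp⟩

end J14

namespace J15
open J1 J5 J14

theorem len_K (w : List Bool) : (ap K w).length = 3 * w.length := by
  induction w with
  | nil => rfl
  | cons c w ih =>
    rw [ap_cons, List.length_append, ih, List.length_cons]
    cases c <;> simp [K] <;> omega

theorem len_H_mod (w : List Bool) : (ap H w).length % 2 = w.length % 2 := by
  induction w with
  | nil => rfl
  | cons c w ih =>
    rw [ap_cons, List.length_append, List.length_cons]
    cases c <;> simp [H] <;> omega

theorem len_Hn_odd (N : ℕ) (c : Bool) : (Hn N [c]).length % 2 = 1 := by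
  induction N with
  | zero => rfl
  | succ n ih =>
    show (ap H (Hn n [c])).length % 2 = 1
    rw [len_H_mod, ih]

theorem len_le (N : ℕ) : (Hn N [false]).length ≤ (Hn N [true]).length := by
  cases N with
  | zero => exact le_refl _
  | succ n =>
    rw [Hn_add n 1 [false], Hn_add n 1 [true]]
    have e1 : Hn 1 [false] = [false, true, false] := rfl
    have e2 : Hn 1 [true] = [false, true, false] ++ [true, false] := rfl
    rw [e1, e2, Hn_append, List.length_append]
    omega

theorem startK (w : List Bool) : w ≠ [] → ∃ t, ap K (ap H w) = 0 :: t := by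
  intro h
  cases w with
  | nil => exact absurd rfl h
  | cons c w =>
    cases c <;> exact ⟨_, rfl⟩

theorem cancelK (u w : List Bool) (r : List (Fin 3)) (h : ap K u ++ r = ap K w) :
    ∃ w', w = u ++ w' ∧ r = ap K w' := by
  induction u generalizing w with
  | nil => exact ⟨w, rfl, h⟩
  | cons c u ih =>
    cases w with
    | nil =>
      exfalso
      have := congrArg List.length h
      rw [List.length_append, len_K, len_K] at this
      simp at this
    | cons d w =>
      rw [ap_cons, ap_cons, List.append_assoc] at h
      have hlen : (K c).length = (K d).length := by cases c <;> cases d <;> rfl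
      obtain ⟨h1, h2⟩ := List.append_inj h hlen
      have hcd : c = d := by
        cases c <;> cases d <;> simp [K] at h1 <;> rfl
      obtain ⟨w', hw, hr⟩ := ih w h2
      exact ⟨w', by rw [hcd, hw, List.cons_append], hr⟩

theorem pal_of (w : List Bool) (z : List (Fin 3)) (hz : z.reverse = z) (h : ap K w = z) :
    w.reverse = w := by
  apply ap_K_injective
  rw [ap_K_reverse, h, hz]

theorem start_end (z t r : List (Fin 3)) (hne : z ≠ []) (hz : z.reverse = z)
    (h : z ++ r = 0 :: t) : (∃ l', z = l' ++ [0]) ∧ ∃ r', z = 0 :: r' := by
  cases z with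
  | nil => exact absurd rfl hne
  | cons a z' =>
    have ha : a = 0 := by
      rw [List.cons_append] at h
      exact (List.cons.inj h).1
    subst ha
    refine ⟨⟨z'.reverse, ?_⟩, ⟨z', rfl⟩⟩
    rw [← List.reverse_cons, hz]

theorem X_eq (N : ℕ) (z q y : List (Fin 3)) (hz : z.reverse = z) (hq : q.reverse = q)
    (hy : y.reverse = y) (h1 : z ++ q ++ z = ap K (Hn N [false]))
    (h2 : y ++ z ++ y = ap K (Hn N [true])) : z = [0] ∧ q = [1] ∧ y = [2] := by
  have l1 := congrArg List.length h1
  have l2 := congrArg List.length h2
  rw [List.length_append, List.length_append, len_K] at l1 l2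
  have o1 := len_Hn_odd N false
  have o2 := len_Hn_odd N true
  have hle := len_le N
  have hzne : z ≠ [] := by
    intro h; subst h
    simp only [List.length_nil] at l2
    omega
  have hyne : y ≠ [] := by
    intro h; subst h
    simp only [List.length_nil] at l2
    omega
  cases N with
  | zero =>
    have e1 : ap K (Hn 0 [false]) = [0, 1, 0] := rfl
    have e2 : ap K (Hn 0 [true]) = [2, 0, 2] := rfl
    rw [e1] at h1
    rw [e2] at h2
    have l1' : z.length + q.length + z.length = 3 := by
      have := congrArg List.length h1
      simp at this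
      omega
    have l2' : y.length + z.length + y.length = 3 := by
      have := congrArg List.length h2
      simp at this
      omega
    have z1 : z.length = 1 := by
      have : z.length ≠ 0 := by
        intro h; exact hzne (List.length_eq_zero_iff.1 h)
      omega
    have q1 : q.length = 1 := by omega
    have y1 : y.length = 1 := by omega
    obtain ⟨a, rfl⟩ := List.length_eq_one_iff.1 z1
    obtain ⟨b, rfl⟩ := List.length_eq_one_iff.1 q1
    obtain ⟨c, rfl⟩ := List.length_eq_one_iff.1 y1
    simp at h1 h2
    obtain ⟨rfl, rfl, _⟩ := h1
    obtain ⟨rfl, _⟩ := h2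
    exact ⟨rfl, rfl, rfl⟩
  | succ n =>
    exfalso
    have hne : ∀ c, Hn n [c] ≠ [] := by
      intro c h
      have := len_Hn_odd n c
      rw [h] at this
      simp at this
    obtain ⟨t1, ht1⟩ := startK (Hn n [false]) (hne false)
    obtain ⟨t2, ht2⟩ := startK (Hn n [true]) (hne true)
    have h1' := h1
    have h2' := h2
    rw [List.append_assoc] at h1' h2'
    obtain ⟨ze, zs⟩ := start_end z t1 (q ++ z) hzne hz (h1'.trans ht1)
    obtain ⟨ye, ys⟩ := start_end y t2 (z ++ y) hyne hy (h2'.trans ht2)
    obtain ⟨y1, y2, hy12, hy1, hy2⟩ := decK (Hn (n+1) [true]) y (z ++ y) h2'.symm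
      (Or.inr (Or.inr ⟨ye, by
        obtain ⟨r', hr'⟩ := zs
        exact ⟨r' ++ y, by rw [hr', List.cons_append]⟩⟩))
    obtain ⟨z1, y3, hz13, hz1, hy3⟩ := decK y2 z y hy2 (Or.inr (Or.inr ⟨ze, ys⟩))
    have hy13 : y3 = y1 := ap_K_injective (by rw [hy3, hy1])
    subst hy13
    have hC : y3 ++ z1 ++ y3 = Hn (n+1) [true] := by
      rw [hy12, hz13, List.append_assoc]
    rw [← hz1] at h1'
    obtain ⟨w', hw', hr'⟩ := cancelK z1 _ _ h1'
    have h3 := congrArg List.reverse hr'
    rw [List.reverse_append, ← ap_K_reverse, ← ap_K_reverse] at h3
    obtain ⟨w'', hw'', hr''⟩ := cancelK z1.reverse _ _ h3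
    have hpz : z1.reverse = z1 := pal_of z1 z hz hz1
    have hpy : y3.reverse = y3 := pal_of y3 y hy hy3
    have hqw : ap K w'' = q := by rw [← hr'', hq]
    have hpw : w''.reverse = w'' := pal_of w'' q hq hqw
    have hw3 : w' = w'' ++ z1 := by
      have := congrArg List.reverse hw''
      rw [List.reverse_reverse, List.reverse_append, List.reverse_reverse, hpw] at this
      exact this
    have hA : z1 ++ w'' ++ z1 = Hn (n+1) [false] := by
      rw [hw', hw3, List.append_assoc]
    exact Y_eq (n+1) z1 w'' y3 hpz hpw hpy hA hC

end J15

end Pool.Helper223.CP
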