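import Pool.Agent.Helper223.CP.Basics

namespace Pool.Helper223.CP

namespace J18
open J1

theorem FL_key (w : List Bool) :
    ap F w ++ [false, true, false] = [false, true, false] ++ ap H w := by
  induction w with
  | nil => rfl
  | cons a w ih =>
    rw [ap_cons, ap_cons, List.append_assoc, ih, ← List.append_assoc, ← List.append_assoc]
    congr 1
    cases a <;> rfl

theorem FL_infix {α β : Type} (f : α → List β) {v w : List α} (h : v <:+: w) :
    ap f v <:+: ap f w := by
  obtain ⟨s, t, rfl⟩ := h
  exact ⟨ap f s, ap f t, by simp⟩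

theorem FL_LY_H {v : List Bool} (h : LY v) : LY (ap H v) := by
  obtain ⟨n, hn⟩ := h
  exact ⟨n + 1, FL_infix H hn⟩

theorem FL_LY_F {w : List Bool} (h : LY w) : LY (ap F w) := by
  obtain ⟨s, t, hst⟩ := LY_ext h
  have h1 : LY (s :: w) := LY_infix hst ⟨[], [t], by simp⟩
  have h2 := FL_LY_H h1
  refine LY_infix h2 ?_
  rw [ap_cons]
  have h3 : ∃ p, H s = p ++ [false, true, false] := by
    cases s
    · exact ⟨[], rfl⟩
    · exact ⟨[false, true], rfl⟩
  obtain ⟨p, hp⟩ := h3
  refine ⟨p, [false, true, false], ?_⟩
  rw [hp, List.append_assoc, List.append_assoc, FL_key]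

theorem FL_iter_append (n : ℕ) (v w : List Bool) :
    (ap F)^[n] (v ++ w) = (ap F)^[n] v ++ (ap F)^[n] w := by
  induction n generalizing v w with
  | zero => rfl
  | succ n ih =>
    rw [Function.iterate_succ_apply, Function.iterate_succ_apply, Function.iterate_succ_apply,
      ap_append, ih]

theorem FL_iter_ne (n : ℕ) {w : List Bool} (h : w ≠ []) : (ap F)^[n] w ≠ [] := by
  induction n generalizing w with
  | zero => exact h
  | succ n ih =>
    rw [Function.iterate_succ_apply]
    apply ih
    cases w with
    | nil => exact absurd rfl h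
    | cons a w =>
      rw [ap_cons]
      cases a <;> simp [F]

theorem FL_ext {w : List Bool} (h : ∃ n, w <:+: (ap F)^[n] [false]) :
    ∃ t, ∃ n, (w ++ [t]) <:+: (ap F)^[n] [false] := by
  obtain ⟨n, s, t', hn⟩ := h
  have h1 : (ap F)^[n + 1] [false] = (ap F)^[n] [false] ++ (ap F)^[n] [true, false] := by
    rw [Function.iterate_succ_apply, ← FL_iter_append]
    rfl
  have h2 : t' ++ (ap F)^[n] [true, false] ≠ [] := by
    intro h
    exact FL_iter_ne n (by simp) (List.append_eq_nil_iff.1 h).2
  obtain ⟨t, r, hr⟩ := List.exists_cons_of_ne_nil h2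
  refine ⟨t, n + 1, s, r, ?_⟩
  rw [h1, ← hn]
  simp only [List.append_assoc, List.singleton_append]
  rw [hr]

theorem FL_H {w : List Bool} (h : ∃ n, w <:+: (ap F)^[n] [false]) :
    ∃ n, ap H w <:+: (ap F)^[n] [false] := by
  obtain ⟨t, n, hn⟩ := FL_ext h
  refine ⟨n + 1, ?_⟩
  rw [Function.iterate_succ_apply']
  refine List.IsInfix.trans ?_ (FL_infix F hn)
  rw [ap_append]
  have h3 : ∃ r, ap F [t] = [false, true, false] ++ r := by
    cases t
    · exact ⟨[], rfl⟩
    · exact ⟨[false, true], rfl⟩
  obtain ⟨r, hr⟩ := h3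
  refine ⟨[false, true, false], r, ?_⟩
  rw [hr, ← List.append_assoc, FL_key]

theorem F_lang (w : List Bool) : (∃ n, w <:+: (ap F)^[n] [false]) ↔ LY w := by
  constructor
  · rintro ⟨n, hn⟩
    refine LY_infix ?_ hn
    clear hn
    induction n with
    | zero => exact ⟨0, List.infix_rfl⟩
    | succ n ih =>
      rw [Function.iterate_succ_apply']
      exact FL_LY_F ih
  · rintro ⟨n, hn⟩
    have h1 : ∀ n, ∃ m, Hn n [false] <:+: (ap F)^[m] [false] := by
      intro n
      induction n with
      | zero => exact ⟨0, List.infix_rfl⟩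
      | succ n ih => exact FL_H ih
    obtain ⟨m, hm⟩ := h1 n
    exact ⟨m, hn.trans hm⟩

end J18

namespace J19

theorem fx_prefix {α : Type} (φ : α → List α) {v w : List α} (h : v <+: w) :
    ap φ v <+: ap φ w := by
  obtain ⟨s, rfl⟩ := h
  exact ⟨ap φ s, by rw [ap_append]⟩

theorem fx_length {α : Type} (φ : α → List α) (hne : ∀ b, φ b ≠ []) (w : List α) :
    w.length ≤ (ap φ w).length := by
  induction w with
  | nil => simp
  | cons b w ih =>
    rw [ap_cons, List.length_append, List.length_cons]
    have : 0 < (φ b).length := List.length_pos_iff.2 (hne b)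
    omega

theorem fx_getD {α : Type} {v w : List α} (h : v <+: w) {i : ℕ} (hi : i < v.length) (a : α) :
    w.getD i a = v.getD i a := by
  obtain ⟨s, rfl⟩ := h
  rw [List.getD_append _ _ _ _ hi]


theorem exists_fixed {α : Type} (φ : α → List α) (a : α) (r : List α) (h : φ a = a :: r)
    (hr : r ≠ []) (hne : ∀ b, φ b ≠ []) :
    ∃ u : ℕ → α, IsFixedPoint φ u ∧ ∀ w, w ∈ language u ↔ ∃ n, w <:+: (ap φ)^[n] [a] := by
  have hstart : ∀ n, ∃ w, (ap φ)^[n] [a] = a :: w := by
    intro n
    induction n with
    | zero => exact ⟨[], rfl⟩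
    | succ n ih =>
      obtain ⟨w, hw⟩ := ih
      rw [Function.iterate_succ_apply', hw, ap_cons, h]
      exact ⟨r ++ ap φ w, rfl⟩
  have hstep : ∀ n, (ap φ)^[n] [a] <+: (ap φ)^[n + 1] [a] := by
    intro n
    induction n with
    | zero =>
      refine ⟨r, ?_⟩
      simp [h]
    | succ n ih =>
      rw [Function.iterate_succ_apply', Function.iterate_succ_apply' (ap φ) (n + 1)]
      exact fx_prefix φ ih
  have hmono : ∀ m n, m ≤ n → (ap φ)^[m] [a] <+: (ap φ)^[n] [a] := by
    intro m n hmn
    induction n, hmn using Nat.le_induction with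
    | base => exact List.prefix_refl _
    | succ n _ ih => exact ih.trans (hstep n)
  have hlen : ∀ n, n + 1 ≤ ((ap φ)^[n] [a]).length := by
    intro n
    induction n with
    | zero => simp
    | succ n ih =>
      obtain ⟨w, hw⟩ := hstart n
      rw [Function.iterate_succ_apply', hw, ap_cons, h, List.length_append, List.length_cons]
      rw [hw, List.length_cons] at ih
      have h1 : 0 < r.length := List.length_pos_iff.2 hr
      have h2 := fx_length φ hne w
      omega
  let u : ℕ → α := fun n => ((ap φ)^[n] [a]).getD n a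
  have hu : ∀ k i, i < ((ap φ)^[k] [a]).length → ((ap φ)^[k] [a]).getD i a = u i := by
    intro k i hi
    rcases le_total i k with hik | hki
    · exact fx_getD (hmono i k hik) (by have := hlen i; omega) a
    · exact (fx_getD (hmono k i hki) hi a).symm
  have hpref : ∀ k m, m ≤ ((ap φ)^[k] [a]).length → pref u m = ((ap φ)^[k] [a]).take m := by
    intro k m hm
    apply List.ext_getElem
    · simp [pref, hm]
    · intro i h1 h2
      have hi : i < m := by simpa [pref] using h1
      have hi2 : i < ((ap φ)^[k] [a]).length := by omega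
      have := hu k i hi2
      rw [List.getD_eq_getElem _ _ hi2] at this
      simp only [pref, List.getElem_map, List.getElem_range, List.getElem_take]
      exact this.symm
  have hpl : ∀ m, (pref u m).length = m := by
    intro m
    simp [pref]
  refine ⟨u, ⟨?_, ?_⟩, ?_⟩
  · intro n
    have h1 : pref u n <+: (ap φ)^[n] [a] := by
      rw [hpref n n (by have := hlen n; omega)]
      exact List.take_prefix _ _
    have h2 : ap φ (pref u n) <+: (ap φ)^[n + 1] [a] := by
      rw [Function.iterate_succ_apply']
      exact fx_prefix φ h1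
    rw [hpref (n + 1) _ h2.length_le]
    exact List.prefix_iff_eq_take.1 h2
  · intro m
    refine ⟨m, ?_⟩
    have := fx_length φ hne (pref u m)
    rw [hpl] at this
    exact this
  · intro w
    constructor
    · rintro ⟨n, hn⟩
      refine ⟨n, hn.trans ?_⟩
      rw [hpref n n (by have := hlen n; omega)]
      exact (List.take_prefix _ _).isInfix
    · rintro ⟨n, hn⟩
      refine ⟨((ap φ)^[n] [a]).length, ?_⟩
      rw [hpref n _ le_rfl, List.take_length]
      exact hn

end J19

namespace J20
open J1 J18

theorem phi_K (x : List Bool) : ap phi (ap K x) = ap K (ap F x) := by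
  induction x with
  | nil => rfl
  | cons a x ih =>
    rw [ap_cons, ap_append, ih, ap_cons, ap_append]
    congr 1
    cases a <;> rfl

theorem phi_iter (n : ℕ) : (ap phi)^[n + 1] [0] = ap K ((ap F)^[n] [false]) := by
  induction n with
  | zero => rfl
  | succ n ih =>
    rw [Function.iterate_succ_apply', ih, phi_K, ← Function.iterate_succ_apply' (ap F)]

theorem ap_infix {α β : Type} (f : α → List β) {v w : List α} (h : v <:+: w) : ap f v <:+: ap f w := by
  obtain ⟨s, t, rfl⟩ := h
  exact ⟨ap f s, ap f t, by simp⟩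

theorem LY_false : LY [false] := ⟨0, List.infix_refl _⟩

theorem length_K (y : List Bool) : (ap K y).length = 3 * y.length := by
  induction y with
  | nil => rfl
  | cons a y ih =>
    rw [ap_cons, List.length_append, ih, List.length_cons]
    cases a <;> simp [K] <;> omega

theorem length_H (y : List Bool) : 3 * y.length ≤ (ap H y).length := by
  induction y with
  | nil => simp
  | cons a y ih =>
    rw [ap_cons, List.length_append, List.length_cons]
    cases a <;> simp [H] <;> omega

theorem Hn_pos (n : ℕ) : 0 < (Hn n [false]).length := by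
  induction n with
  | zero => simp [Hn]
  | succ n ih =>
    have := length_H (Hn n [false])
    show 0 < (ap H (Hn n [false])).length
    omega

theorem Hn_lt (n : ℕ) : (Hn n [false]).length < (Hn (n + 1) [false]).length := by
  have h1 := length_H (Hn n [false])
  have h2 := Hn_pos n
  show _ < (ap H (Hn n [false])).length
  omega

theorem phi_lang (w : List (Fin 3)) : (∃ n, w <:+: (ap phi)^[n] [0]) ↔ LX w := by
  constructor
  · rintro ⟨n, hn⟩
    cases n with
    | zero => exact ⟨[false], LY_false, hn.trans ⟨[], [1, 0], rfl⟩⟩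
    | succ n =>
      rw [phi_iter] at hn
      exact ⟨_, (F_lang _).1 ⟨n, List.infix_refl _⟩, hn⟩
  · rintro ⟨y, hy, hw⟩
    obtain ⟨n, hn⟩ := (F_lang y).2 hy
    refine ⟨n + 1, ?_⟩
    rw [phi_iter]
    exact hw.trans (ap_infix K hn)

theorem phi_primitive : IsPrimitive phi := by
  refine ⟨2, ?_⟩
  decide

theorem LX_palindromes : {w | LX w ∧ IsPalindrome w}.Infinite := by
  have hmono : StrictMono fun n => (Hn n [false]).length := strictMono_nat_of_lt_succ Hn_lt
  refine Set.infinite_of_injective_forall_mem (f := fun n : ℕ => ap K (Hn n [false])) ?_ ?_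
  · intro a b hab
    have h1 := congrArg List.length hab
    simp only [length_K] at h1
    exact hmono.injective (by show (Hn a [false]).length = (Hn b [false]).length; omega)
  · intro n
    refine ⟨⟨_, ⟨n, List.infix_refl _⟩, List.infix_refl _⟩, ?_⟩
    show (ap K (Hn n [false])).reverse = ap K (Hn n [false])
    rw [← ap_K_reverse, ← Hn_reverse]
    rfl

end J20

namespace J21

theorem ap_infix_lof {α β : Type} (f : α → List β) {w x : List α} (h : w <:+: x) :
    ap f w <:+: ap f x := by
  obtain ⟨s, t, rfl⟩ := h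
  exact ⟨ap f s, ap f t, by rw [ap_append, ap_append]⟩

theorem ap_empty_lof {α β : Type} (f : α → List β) (hf : ∀ a, f a = []) (w : List α) :
    ap f w = [] := by
  induction w with
  | nil => rfl
  | cons a w ih => rw [ap_cons, hf a, ih]; rfl

theorem lang_of_fixed {ψ : Fin 3 → List (Fin 3)} {v : ℕ → Fin 3} (h : IsFixedPoint ψ v)
    (hv : ∀ w, w ∈ language v ↔ LX w) :
    (∀ w, LX w → LX (ap ψ w)) ∧ ∃ a, ψ a ≠ [] := by
  constructor
  · intro w hw
    rw [← hv] at hw ⊢
    obtain ⟨n, hn⟩ := hw
    refine ⟨(ap ψ (pref v n)).length, ?_⟩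
    rw [← h.1 n]
    exact ap_infix_lof ψ hn
  · by_contra hcon
    push Not at hcon
    obtain ⟨n, hn⟩ := h.2 1
    rw [ap_empty_lof ψ hcon] at hn
    simp at hn

end J21

end Pool.Helper223.CP
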