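import Pool.Agent.Helper223.CP.Descent
import Pool.Agent.Helper223.CP.Equation

namespace Pool.Helper223.CP

namespace J16
open J1 J5 Sr J8 J10b J11 J12 J13 J15

theorem inner (χ : Fin 3 → List (Fin 3)) (e : List (Fin 3)) (he : e.length ≤ 1)
    (q : Fin 3 → List (Fin 3)) (hq : ∀ a, (q a).reverse = q a) (hχ : ∀ a, χ a = e ++ q a)
    (hL : ∀ w, LX w → LX (ap χ w)) (hne : ∃ a, χ a ≠ []) : ∀ a, χ a = [a] := by
  obtain ⟨V, hVf, hVt⟩ : ∃ V : Bool → List (Fin 3),
      V false = q 0 ++ e ++ q 1 ++ e ++ q 0 ∧ V true = q 2 ++ e ++ q 0 ++ e ++ q 2 :=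
    ⟨fun c => match c with
    | false => q 0 ++ e ++ q 1 ++ e ++ q 0
    | true => q 2 ++ e ++ q 0 ++ e ++ q 2, rfl, rfl⟩
  have hecases : e = [] ∨ ∃ d, e = [d] := by
    match e, he with
    | [], _ => exact Or.inl rfl
    | [d], _ => exact Or.inr ⟨d, rfl⟩
    | _ :: _ :: _, h => simp at h
  have her : e.reverse = e := by
    rcases hecases with rfl | ⟨d, rfl⟩
    · rfl
    · rfl
  have hVr : ∀ c, (V c).reverse = V c := by
    intro c
    cases c
    · rw [hVf]
      simp only [List.reverse_append, hq, her, List.append_assoc]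
    · rw [hVt]
      simp only [List.reverse_append, hq, her, List.append_assoc]
  have hK : ∀ c, ap χ (K c) = e ++ V c := by
    intro c
    cases c
    · rw [hVf]
      show χ 0 ++ (χ 1 ++ (χ 0 ++ [])) = e ++ (q 0 ++ e ++ q 1 ++ e ++ q 0)
      simp only [hχ, List.append_assoc, List.append_nil]
    · rw [hVt]
      show χ 2 ++ (χ 0 ++ (χ 2 ++ [])) = e ++ (q 2 ++ e ++ q 0 ++ e ++ q 2)
      simp only [hχ, List.append_assoc, List.append_nil]
  have hKx : ∀ x : List Bool, ap χ (ap K x) = ap (fun c => e ++ V c) x := by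
    intro x
    induction x with
    | nil => rfl
    | cons a x ih => rw [ap_cons, ap_append, ih, hK, ap_cons]
  have hX : XPair e V := by
    refine ⟨hVr, fun x hx => ?_⟩
    have h1 : LX (ap K x) := ⟨x, hx, List.infix_refl _⟩
    obtain ⟨s, t, hst⟩ := LX_ext h1
    have h2 := hL _ hst
    refine LX_infix h2 ⟨χ s, q t, ?_⟩
    rw [ap_cons, ap_append, hKx, ap_cons, ap_nil, hχ t]
    simp only [List.append_assoc, List.append_nil]
  rcases hecases with rfl | ⟨d, rfl⟩
  · simp only [List.append_nil] at hVf hVt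
    have hne' : V false ≠ [] ∨ V true ≠ [] := by
      by_contra hcon
      push Not at hcon
      obtain ⟨h1, h2⟩ := hcon
      rw [hVf] at h1
      rw [hVt] at h2
      simp only [List.append_eq_nil_iff] at h1 h2
      obtain ⟨a, ha⟩ := hne
      apply ha
      rw [hχ a, List.nil_append]
      match a with
      | 0 => exact h1.2
      | 1 => exact h1.1.2
      | 2 => exact h2.2
    obtain ⟨V', hV', hVV⟩ := X_empty V hX hne'
    have hne2 : V' false ≠ [] ∨ V' true ≠ [] := by
      by_contra hcon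
      push Not at hcon
      obtain ⟨h1, h2⟩ := hcon
      rcases hne' with h | h
      · apply h
        rw [hVV, h1, ap_nil]
      · apply h
        rw [hVV, h2, ap_nil]
    obtain ⟨N, hN⟩ := Y_empty V' hV' hne2
    have e1 : q 0 ++ q 1 ++ q 0 = ap K (Hn N [false]) := by
      rw [← hN false, ← hVV false, hVf]
    have e2 : q 2 ++ q 0 ++ q 2 = ap K (Hn N [true]) := by
      rw [← hN true, ← hVV true, hVt]
    obtain ⟨h0, h1, h2⟩ := X_eq N (q 0) (q 1) (q 2) (hq 0) (hq 1) (hq 2) e1 e2
    intro a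
    rw [hχ a, List.nil_append]
    match a with
    | 0 => exact h0
    | 1 => exact h1
    | 2 => exact h2
  · exfalso
    match d, hX with
    | 0, hX =>
      obtain ⟨V', hV'⟩ := X_a V hX (checkX_a V hX)
      exact Y_letter true V' hV'
    | 1, hX =>
      obtain ⟨V', hV'⟩ := X_b V hX (checkX_b V hX)
      exact Y_letter false V' hV'
    | 2, hX => exact checkX_c V hX

end J16

end Pool.Helper223.CP
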