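import Pool.Agent.Helper223.CP.Defs

namespace Pool.Helper223.CP

@[simp] theorem ap_nil {α β : Type} (f : α → List β) : ap f [] = [] := rfl

@[simp] theorem ap_cons {α β : Type} (f : α → List β) (a : α) (w : List α) :
    ap f (a :: w) = f a ++ ap f w := rfl

@[simp] theorem ap_append {α β : Type} (f : α → List β) (v w : List α) :
    ap f (v ++ w) = ap f v ++ ap f w := by simp [ap]

/-- `A = false ↦ ACA`, `C = true ↦ ACACA` -/
def H : Bool → List Bool
  | false => [false, true, false]
  | true => [false, true, false, true, false]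

/-- `A ↦ aba`, `C ↦ cac` with `a,b,c = 0,1,2` -/
def K : Bool → List (Fin 3)
  | false => [0, 1, 0]
  | true => [2, 0, 2]

/-- iterates of `H` -/
def Hn : ℕ → List Bool → List Bool
  | 0, w => w
  | n + 1, w => ap H (Hn n w)

/-- the language of the two-letter shift -/
def LY (w : List Bool) : Prop := ∃ n, w <:+: Hn n [false]

/-- the language of the three-letter shift -/
def LX (w : List (Fin 3)) : Prop := ∃ y, LY y ∧ w <:+: ap K y

/-! ### basics -/

theorem LY_infix {v w : List Bool} (h : LY w) (hv : v <:+: w) : LY v := by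
  obtain ⟨n, hn⟩ := h
  exact ⟨n, hv.trans hn⟩

theorem LX_infix {v w : List (Fin 3)} (h : LX w) (hv : v <:+: w) : LX v := by
  obtain ⟨y, hy, hw⟩ := h
  exact ⟨y, hy, hv.trans hw⟩

/-- forbidden words: CC, AAA, CACAC, CACAACAC, AACAACAACAA, CACAACAACACAACAACAC -/
def FBY : List (List Bool) :=
  [[true, true], [false, false, false], [true, false, true, false, true],
   [true, false, true, false, false, true, false, true],
   [false, false, true, false, false, true, false, false, true, false, false],
   [true, false, true, false, false, true, false, false, true, false, true, false, false, true,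
    false, false, true, false, true]]

/-- forbidden words bb, bc, cb, cc, aaa, aac, bab, caa, bacab, cacac -/
def FBX : List (List (Fin 3)) :=
  [[1, 1], [1, 2], [2, 1], [2, 2], [0, 0, 0], [0, 0, 2], [1, 0, 1], [2, 0, 0],
   [1, 0, 2, 0, 1], [2, 0, 2, 0, 2]]

/-- Y-level data: images `E ++ V c` of the letters -/
def EPair (E : List Bool) (V : Bool → List Bool) : Prop :=
  (∀ c, (V c).reverse = V c) ∧ ∀ x, LY x → LY (ap (fun c => E ++ V c) x ++ E)

def XPair (E : List (Fin 3)) (V : Bool → List (Fin 3)) : Prop :=
  (∀ c, (V c).reverse = V c) ∧ ∀ x, LY x → LX (ap (fun c => E ++ V c) x ++ E)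

/-- the counterexample `a ↦ aba, b ↦ cac, c ↦ abacac` -/
def phi : Fin 3 → List (Fin 3)
  | 0 => [0, 1, 0]
  | 1 => [2, 0, 2]
  | 2 => [0, 1, 0, 2, 0, 2]

/-- `A ↦ ACA, C ↦ ACAAC` -/
def F : Bool → List Bool
  | false => [false, true, false]
  | true => [false, true, false, false, true]

end Pool.Helper223.CP
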