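import Pool.Agent.Helper223.CP.Basics

namespace Pool.Helper223.CP

namespace Sr
open J3

/-! ### search machinery -/

section search

variable {α : Type} [DecidableEq α]

/-- prefix test -/
def isPre : List α → List α → Bool
  | [], _ => true
  | _ :: _, [] => false
  | a :: w, b :: t => decide (a = b) && isPre w t

/-- infix test -/
def isInf (w : List α) : List α → Bool
  | [] => isPre w []
  | b :: t => isPre w (b :: t) || isInf w t

theorem isPre_sound : ∀ (w t : List α), isPre w t = true → w <+: t
  | [], t, _ => List.nil_prefix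
  | a :: w, [], h => by simp [isPre] at h
  | a :: w, b :: t, h => by
    simp only [isPre, Bool.and_eq_true, decide_eq_true_eq] at h
    obtain ⟨rfl, h2⟩ := h
    exact (List.cons_prefix_cons).2 ⟨rfl, isPre_sound w t h2⟩

theorem isInf_sound (w : List α) : ∀ t : List α, isInf w t = true → w <:+: t
  | [], h => by
    simp only [isInf] at h
    exact (isPre_sound w [] h).isInfix
  | b :: t, h => by
    simp only [isInf, Bool.or_eq_true] at h
    rcases h with h | h
    · exact (isPre_sound w _ h).isInfix
    · exact (isInf_sound w t h).trans (List.suffix_cons b t).isInfix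

/-- `V` has the shape described by the pattern -/
def fits (V : List α) (p : Bool × List α) : Prop :=
  if p.1 then ∃ mid, V = p.2 ++ mid ++ p.2.reverse ∧ mid.reverse = mid else V = p.2

/-- the known segments of `E V_{x1} E V_{x2} ... E` -/
def segs (E : List α) (p : Bool → Bool × List α) : List Bool → List α → List (List α)
  | [], cur => [cur ++ E]
  | c :: x, cur =>
    if (p c).1 then (cur ++ E ++ (p c).2) :: segs E p x (p c).2.reverse
    else segs E p x (cur ++ E ++ (p c).2)

theorem segs_infix (E : List α) (p : Bool → Bool × List α) (V : Bool → List α)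
    (hf : ∀ c, fits (V c) (p c)) :
    ∀ (x : List Bool) (cur s : List α), s ∈ segs E p x cur →
      s <:+: cur ++ (ap (fun c => E ++ V c) x ++ E)
  | [], cur, s, hs => by
    simp only [segs, List.mem_singleton] at hs
    subst hs
    simp
  | c :: x, cur, s, hs => by
    have hc := hf c
    unfold fits at hc
    simp only [segs] at hs
    by_cases h1 : (p c).1 = true
    · rw [if_pos h1] at hs hc
      obtain ⟨mid, hV, -⟩ := hc
      rcases List.mem_cons.1 hs with hs | hs
      · subst hs
        refine ⟨[], mid ++ (p c).2.reverse ++ (ap (fun c => E ++ V c) x ++ E), ?_⟩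
        simp only [ap_cons, hV, List.nil_append, List.append_assoc]
      · have := segs_infix E p V hf x _ s hs
        refine this.trans ⟨cur ++ E ++ (p c).2 ++ mid, [], ?_⟩
        simp only [ap_cons, hV, List.append_nil, List.append_assoc]
    · rw [if_neg h1] at hs hc
      have := segs_infix E p V hf x _ s hs
      rw [ap_cons, hc]
      simpa [List.append_assoc] using this

/-- some word of `FB` occurs in a known segment -/
def bad (FB : List (List α)) (xs : List (List Bool)) (E : List α) (p : Bool → Bool × List α) :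
    Bool :=
  xs.any fun x => (segs E p x []).any fun s => FB.any fun f => isInf f s

/-- refine a pattern by one letter -/
def refine (al : List α) (p : Bool × List α) : List (Bool × List α) :=
  if p.1 then
    (false, p.2 ++ p.2.reverse) ::
      (al.map (fun c => (false, p.2 ++ [c] ++ p.2.reverse)) ++
        al.map (fun c => (true, p.2 ++ [c])))
  else [p]

theorem pal_cases (mid : List α) (h : mid.reverse = mid) :
    mid = [] ∨ (∃ c, mid = [c]) ∨ ∃ c m, mid = c :: (m ++ [c]) ∧ m.reverse = m := by
  rcases mid with _ | ⟨c, t⟩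
  · exact Or.inl rfl
  · right
    rcases List.eq_nil_or_concat t with ht | ⟨m, d, ht⟩
    · left; exact ⟨c, by rw [ht]⟩
    · right
      rw [List.concat_eq_append] at ht
      subst ht
      simp only [List.reverse_cons, List.reverse_append, List.reverse_nil, List.nil_append,
        List.singleton_append, List.cons_append, List.cons.injEq] at h
      obtain ⟨rfl, h2⟩ := h
      have h3 : m.reverse = m := List.append_cancel_right h2
      exact ⟨_, m, rfl, h3⟩

theorem refine_sound (al : List α) (hal : ∀ a, a ∈ al) (V : List α) (p : Bool × List α)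
    (h : fits V p) : ∃ q ∈ refine al p, fits V q := by
  unfold fits at h
  unfold refine
  by_cases h1 : p.1 = true
  · rw [if_pos h1] at h ⊢
    obtain ⟨mid, hV, hmid⟩ := h
    rcases pal_cases mid hmid with rfl | ⟨c, rfl⟩ | ⟨c, m, rfl, hm⟩
    · refine ⟨(false, p.2 ++ p.2.reverse), by simp, ?_⟩
      simp [fits, hV]
    · refine ⟨(false, p.2 ++ [c] ++ p.2.reverse), ?_, ?_⟩
      · refine List.mem_cons_of_mem _ (List.mem_append_left _ ?_)
        exact List.mem_map.2 ⟨c, hal c, rfl⟩
      · simp [fits, hV]
    · refine ⟨(true, p.2 ++ [c]), ?_, ?_⟩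
      · refine List.mem_cons_of_mem _ (List.mem_append_right _ ?_)
        exact List.mem_map.2 ⟨c, hal c, rfl⟩
      · simp only [fits, if_true]
        exact ⟨m, by simp [hV], hm⟩
  · rw [if_neg h1] at h ⊢
    refine ⟨p, by simp, ?_⟩
    unfold fits
    rw [if_neg h1]
    exact h

/-- the search tree -/
def search (al : List α) (FB : List (List α)) (xs : List (List Bool)) (E : List α)
    (good : (Bool × List α) → (Bool × List α) → Bool) :
    ℕ → (Bool × List α) → (Bool × List α) → Bool
  | 0, _, _ => false
  | n + 1, pA, pC =>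
    good pA pC || bad FB xs E (fun c => if c then pC else pA) ||
      (refine al pA).all fun qA => (refine al pC).all fun qC =>
        search al FB xs E good n qA qC

theorem search_sound (al : List α) (hal : ∀ a, a ∈ al) (LL : List α → Prop)
    (hinf : ∀ v w, LL w → v <:+: w → LL v) (FB : List (List α)) (hFB : ∀ f ∈ FB, ¬ LL f)
    (xs : List (List Bool)) (E : List α) (V : Bool → List α)
    (hV : ∀ x ∈ xs, LL (ap (fun c => E ++ V c) x ++ E))
    (good : (Bool × List α) → (Bool × List α) → Bool) :
    ∀ (n : ℕ) (pA pC : Bool × List α), search al FB xs E good n pA pC = true →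
      fits (V false) pA → fits (V true) pC →
      ∃ qA qC, good qA qC = true ∧ fits (V false) qA ∧ fits (V true) qC := by
  intro n
  induction n with
  | zero => intro pA pC h; simp [search] at h
  | succ n ih =>
    intro pA pC h hA hC
    simp only [search, Bool.or_eq_true] at h
    rcases h with (h | h) | h
    · exact ⟨pA, pC, h, hA, hC⟩
    · exfalso
      unfold bad at h
      rw [List.any_eq_true] at h
      obtain ⟨x, hx, h⟩ := h
      rw [List.any_eq_true] at h
      obtain ⟨s, hs, h⟩ := h
      rw [List.any_eq_true] at h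
      obtain ⟨f, hf, h⟩ := h
      have h1 := isInf_sound f s h
      have h2 := segs_infix E (fun c => if c then pC else pA) V
        (by intro c; cases c <;> simpa using by assumption) x [] s hs
      exact hFB f hf (hinf _ _ (hV x hx) (h1.trans (by simpa using h2)))
    · rw [List.all_eq_true] at h
      obtain ⟨qA, hqA, hA'⟩ := refine_sound al hal _ _ hA
      obtain ⟨qC, hqC, hC'⟩ := refine_sound al hal _ _ hC
      have h3 := h qA hqA
      rw [List.all_eq_true] at h3
      exact ih qA qC (h3 qC hqC) hA' hC'

theorem fits_start (V : List α) (h : V.reverse = V) : fits V (true, []) := by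
  unfold fits
  simp only [if_true]
  exact ⟨V, by simp, h⟩

theorem fits_prefix {V w : List α} {p : Bool × List α} (h : fits V p)
    (hw : isPre w p.2 = true) : w <+: V := by
  unfold fits at h
  have h1 := isPre_sound _ _ hw
  by_cases h2 : p.1 = true
  · rw [if_pos h2] at h
    obtain ⟨mid, rfl, -⟩ := h
    exact h1.trans (by rw [List.append_assoc]; exact List.prefix_append _ _)
  · rw [if_neg h2] at h
    rw [h]; exact h1

theorem fits_short {V w : List α} (h : fits V (false, w)) : V = w := by
  simpa [fits] using h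

end search

/-- the words used in the checks -/
def XS : List (List Bool) :=
  [[false, false], [false, true], [false, true, false], [true, false, true],
   [false, false, true], [true, false, false, true], [false, false, true, false, false],
   [false, false, true, false, false, true], [true, false, false, true, false, true]]

theorem XS_LY : ∀ x ∈ XS, LY x := by
  intro x hx
  refine ⟨3, ?_⟩
  revert x
  decide

theorem check_empty (V : Bool → List Bool) (h : EPair [] V) :
    V false = [] ∨ V true = [] ∨ (V false = [false] ∧ V true = [true]) ∨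
      ((∃ r, V false = false :: r) ∧ ∃ r, V true = false :: r) := by
  obtain ⟨qA, qC, hg, hA, hC⟩ := search_sound [false, true] (by decide) LY
    (fun v w hw hv => LY_infix hw hv) FBY (fun f hf => not_LY_of_mem_FBY hf) XS [] V
    (fun x hx => h.2 x (XS_LY x hx))
    (fun pA pC => decide (pA = (false, [])) || decide (pC = (false, [])) ||
      (decide (pA = (false, [false])) && decide (pC = (false, [true]))) ||
      (isPre [false] pA.2 && isPre [false] pC.2)) 8 (true, []) (true, [])
    (by decide +kernel) (fits_start _ (h.1 _)) (fits_start _ (h.1 _))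
  simp only [Bool.or_eq_true, Bool.and_eq_true, decide_eq_true_eq] at hg
  rcases hg with ((rfl | rfl) | ⟨rfl, rfl⟩) | ⟨h1, h2⟩
  · exact Or.inl (fits_short hA)
  · exact Or.inr (Or.inl (fits_short hC))
  · exact Or.inr (Or.inr (Or.inl ⟨fits_short hA, fits_short hC⟩))
  · right; right; right
    obtain ⟨r1, h1⟩ := fits_prefix hA h1
    obtain ⟨r2, h2⟩ := fits_prefix hC h2
    exact ⟨⟨r1, h1.symm⟩, ⟨r2, h2.symm⟩⟩

theorem shape3 {α : Type} [DecidableEq α] {V : List α} {a b c : α} (hab : a ≠ b) (hac : a ≠ c)
    (hV : V.reverse = V) (h : [a, b, c] <+: V) :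
    ∃ m, V = [a] ++ m ++ [a] ∧ m.reverse = m ∧ [b, c] <+: m := by
  obtain ⟨r, hr⟩ := h
  rcases pal_cases V hV with rfl | ⟨d, rfl⟩ | ⟨d, m, rfl, hm⟩
  · simp at hr
  · simp at hr
  · simp only [List.cons_append, List.nil_append, List.cons.injEq] at hr
    obtain ⟨rfl, hr⟩ := hr
    refine ⟨m, rfl, hm, ?_⟩
    rcases m with _ | ⟨x, m⟩
    · simp at hr
    · simp only [List.cons_append, List.cons.injEq] at hr
      obtain ⟨rfl, hr⟩ := hr
      rcases m with _ | ⟨y, m⟩
      · simp only [List.nil_append, List.cons.injEq] at hr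
        exact absurd hr.1.symm hac
      · simp only [List.cons_append, List.cons.injEq] at hr
        obtain ⟨rfl, hr⟩ := hr
        exact ⟨m, rfl⟩

theorem check_A (V : Bool → List Bool) (h : EPair [false] V) :
    ∀ c, ∃ m, V c = [true, false] ++ m ++ [false, true] ∧ (m = [] ∨ ∃ r, m = false :: r) := by
  obtain ⟨qA, qC, hg, hA, hC⟩ := search_sound [false, true] (by decide) LY
    (fun v w hw hv => LY_infix hw hv) FBY (fun f hf => not_LY_of_mem_FBY hf) XS [false] V
    (fun x hx => h.2 x (XS_LY x hx))
    (fun pA pC => isPre [true, false, false] pA.2 && isPre [true, false, false] pC.2)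
    10 (true, []) (true, [])
    (by decide +kernel) (fits_start _ (h.1 _)) (fits_start _ (h.1 _))
  simp only [Bool.and_eq_true] at hg
  have key : ∀ W : List Bool, W.reverse = W → [true, false, false] <+: W →
      ∃ m, W = [true, false] ++ m ++ [false, true] ∧ (m = [] ∨ ∃ r, m = false :: r) := by
    intro W hW hpre
    obtain ⟨m1, rfl, hm1, h1⟩ := shape3 (by decide) (by decide) hW hpre
    obtain ⟨r, hr⟩ := h1
    rcases pal_cases m1 hm1 with rfl | ⟨d, rfl⟩ | ⟨d, m, rfl, hm⟩
    · simp at hr
    · simp at hr
    · simp only [List.cons_append, List.nil_append, List.cons.injEq] at hr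
      obtain ⟨rfl, hr⟩ := hr
      refine ⟨m, by simp, ?_⟩
      rcases m with _ | ⟨x, m⟩
      · exact Or.inl rfl
      · simp only [List.cons_append, List.cons.injEq] at hr
        exact Or.inr ⟨m, by rw [hr.1]⟩
  intro c
  cases c
  · exact key _ (h.1 _) (fits_prefix hA hg.1)
  · exact key _ (h.1 _) (fits_prefix hC hg.2)

theorem check_C (V : Bool → List Bool) (h : EPair [true] V) :
    ∀ c, ∃ m, V c = [false] ++ m ++ [false] ∧ (m = [] ∨ ∃ r, m = false :: r) := by
  obtain ⟨qA, qC, hg, hA, hC⟩ := search_sound [false, true] (by decide) LY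
    (fun v w hw hv => LY_infix hw hv) FBY (fun f hf => not_LY_of_mem_FBY hf) XS [true] V
    (fun x hx => h.2 x (XS_LY x hx))
    (fun pA pC => isPre [false, false] pA.2 && isPre [false, false] pC.2)
    6 (true, []) (true, [])
    (by decide +kernel) (fits_start _ (h.1 _)) (fits_start _ (h.1 _))
  simp only [Bool.and_eq_true] at hg
  have key : ∀ W : List Bool, W.reverse = W → [false, false] <+: W →
      ∃ m, W = [false] ++ m ++ [false] ∧ (m = [] ∨ ∃ r, m = false :: r) := by
    intro W hW hpre
    obtain ⟨r, hr⟩ := hpre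
    rcases pal_cases W hW with rfl | ⟨d, rfl⟩ | ⟨d, m, rfl, hm⟩
    · simp at hr
    · simp at hr
    · simp only [List.cons_append, List.nil_append, List.cons.injEq] at hr
      obtain ⟨rfl, hr⟩ := hr
      refine ⟨m, by simp, ?_⟩
      rcases m with _ | ⟨x, m⟩
      · exact Or.inl rfl
      · simp only [List.cons_append, List.cons.injEq] at hr
        exact Or.inr ⟨m, by rw [hr.1]⟩
  intro c
  cases c
  · exact key _ (h.1 _) (fits_prefix hA hg.1)
  · exact key _ (h.1 _) (fits_prefix hC hg.2)

theorem checkX_empty (V : Bool → List (Fin 3)) (h : XPair [] V) :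
    V false = [] ∨ V true = [] ∨
      ((∃ r, V false = 0 :: 1 :: r) ∧ ((∃ r, V true = 0 :: 1 :: r) ∨ ∃ r, V true = 2 :: 0 :: r)) := by
  obtain ⟨qA, qC, hg, hA, hC⟩ := search_sound [(0 : Fin 3), 1, 2] (by decide) LX
    (fun v w hw hv => LX_infix hw hv) FBX (fun f hf => not_LX_of_mem_FBX hf) XS [] V
    (fun x hx => h.2 x (XS_LY x hx))
    (fun pA pC => decide (pA = (false, [])) || decide (pC = (false, [])) ||
      (isPre [0, 1] pA.2 && (isPre [0, 1] pC.2 || isPre [2, 0] pC.2)))
    3 (true, []) (true, [])
    (by decide +kernel) (fits_start _ (h.1 _)) (fits_start _ (h.1 _))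
  simp only [Bool.or_eq_true, Bool.and_eq_true, decide_eq_true_eq] at hg
  rcases hg with (rfl | rfl) | ⟨h1, h2⟩
  · exact Or.inl (fits_short hA)
  · exact Or.inr (Or.inl (fits_short hC))
  · right; right
    obtain ⟨r1, h1⟩ := fits_prefix hA h1
    refine ⟨⟨r1, h1.symm⟩, ?_⟩
    rcases h2 with h2 | h2
    · obtain ⟨r2, h2⟩ := fits_prefix hC h2
      exact Or.inl ⟨r2, h2.symm⟩
    · obtain ⟨r2, h2⟩ := fits_prefix hC h2
      exact Or.inr ⟨r2, h2.symm⟩

theorem checkX_a (V : Bool → List (Fin 3)) (h : XPair [0] V) :
    ∀ c, ∃ m, V c = [2] ++ m ++ [2] ∧ ∃ r, m = 0 :: 1 :: r := by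
  obtain ⟨qA, qC, hg, hA, hC⟩ := search_sound [(0 : Fin 3), 1, 2] (by decide) LX
    (fun v w hw hv => LX_infix hw hv) FBX (fun f hf => not_LX_of_mem_FBX hf) XS [0] V
    (fun x hx => h.2 x (XS_LY x hx))
    (fun pA pC => isPre [2, 0, 1] pA.2 && isPre [2, 0, 1] pC.2)
    4 (true, []) (true, [])
    (by decide +kernel) (fits_start _ (h.1 _)) (fits_start _ (h.1 _))
  simp only [Bool.and_eq_true] at hg
  have key : ∀ W : List (Fin 3), W.reverse = W → [2, 0, 1] <+: W →
      ∃ m, W = [2] ++ m ++ [2] ∧ ∃ r, m = 0 :: 1 :: r := by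
    intro W hW hpre
    obtain ⟨m1, h1, -, r, h2⟩ := shape3 (by decide) (by decide) hW hpre
    exact ⟨m1, h1, r, h2.symm⟩
  intro c
  cases c
  · exact key _ (h.1 _) (fits_prefix hA hg.1)
  · exact key _ (h.1 _) (fits_prefix hC hg.2)

theorem checkX_b (V : Bool → List (Fin 3)) (h : XPair [1] V) :
    ∀ c, ∃ m, V c = [0] ++ m ++ [0] := by
  obtain ⟨qA, qC, hg, hA, hC⟩ := search_sound [(0 : Fin 3), 1, 2] (by decide) LX
    (fun v w hw hv => LX_infix hw hv) FBX (fun f hf => not_LX_of_mem_FBX hf) XS [1] V
    (fun x hx => h.2 x (XS_LY x hx))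
    (fun pA pC => (isPre [0] pA.2 && (pA.1 || decide (2 ≤ pA.2.length))) &&
      (isPre [0] pC.2 && (pC.1 || decide (2 ≤ pC.2.length))))
    2 (true, []) (true, [])
    (by decide +kernel) (fits_start _ (h.1 _)) (fits_start _ (h.1 _))
  simp only [Bool.or_eq_true, Bool.and_eq_true, decide_eq_true_eq] at hg
  have key : ∀ (W : List (Fin 3)) (p : Bool × List (Fin 3)), W.reverse = W → fits W p →
      isPre [0] p.2 = true → (p.1 = true ∨ 2 ≤ p.2.length) → ∃ m, W = [0] ++ m ++ [0] := by
    intro W p hW hf h1 h2
    have hlen : 2 ≤ W.length := by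
      unfold fits at hf
      by_cases h3 : p.1 = true
      · rw [if_pos h3] at hf
        obtain ⟨mid, hm, -⟩ := hf
        have : 1 ≤ p.2.length := by
          rcases hp : p.2 with _ | ⟨x, t⟩
          · rw [hp] at h1; simp [isPre] at h1
          · simp
        rw [hm]; simp only [List.length_append, List.length_reverse]; omega
      · rw [if_neg h3] at hf
        rw [hf]
        exact h2.resolve_left h3
    obtain ⟨r, hr⟩ := fits_prefix hf h1
    rcases pal_cases W hW with rfl | ⟨d, rfl⟩ | ⟨d, m, rfl, hm⟩
    · simp at hlen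
    · simp at hlen
    · simp only [List.cons_append, List.nil_append, List.cons.injEq] at hr
      obtain ⟨rfl, hr⟩ := hr
      exact ⟨m, rfl⟩
  intro c
  cases c
  · exact key _ _ (h.1 _) hA hg.1.1 hg.1.2
  · exact key _ _ (h.1 _) hC hg.2.1 hg.2.2

theorem checkX_c (V : Bool → List (Fin 3)) (h : XPair [2] V) : False := by
  obtain ⟨qA, qC, hg, hA, hC⟩ := search_sound [(0 : Fin 3), 1, 2] (by decide) LX
    (fun v w hw hv => LX_infix hw hv) FBX (fun f hf => not_LX_of_mem_FBX hf) XS [2] V
    (fun x hx => h.2 x (XS_LY x hx)) (fun pA pC => false)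
    3 (true, []) (true, [])
    (by decide +kernel) (fits_start _ (h.1 _)) (fits_start _ (h.1 _))
  simp at hg

end Sr

end Pool.Helper223.CP
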